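import Pool.Agent.X249.Kit
import Pool.Agent.H632R2.X3C

/-!
# Cycle stable matchings
-/

set_option autoImplicit false

namespace Pool.Agent.X249.CSR

open Pool.Agent.NPC Pool.Agent.NPC.H632

section

variable {α : Type}

/-- A roommates instance: `V` is the list of the agents and `P a` is the preference list of the
agent `a` (the best agent first); acceptability is mutual. -/
def IsInst (V : List α) (P : α → List α) : Prop :=
  V.Nodup ∧ ∀ a ∈ V, (P a).Nodup ∧ ∀ b ∈ P a, b ∈ V ∧ b ≠ a ∧ a ∈ P b

/-- A matching: `M a` is the partner of `a`, and `M a = a` if `a` is unassigned. -/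
def IsMatching (V : List α) (P : α → List α) (M : α → α) : Prop :=
  ∀ a ∈ V, M a = a ∨ (M a ∈ P a ∧ M (M a) = a)

/-- The agent `a` finds `b` acceptable, and is unassigned or prefers `b` to its partner (that is,
`b` comes before `M a` in its preference list). -/
def Wants (P : α → List α) (M : α → α) (a b : α) : Prop :=
  b ∈ P a ∧ (M a = a ∨ [b, M a].Sublist (P a))

/-- The distinct agents of the list `l` form a blocking cycle of the matching `M`. -/
def Blocking (V : List α) (P : α → List α) (M : α → α) (l : List α) : Prop :=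
  (∀ a ∈ l, a ∈ V) ∧ l.Nodup ∧ 2 ≤ l.length ∧
    ∀ i a b, l[i]? = some a → l[(i + 1) % l.length]? = some b → Wants P M a b

/-- There is a matching without blocking cycles whose length satisfies `ok`. -/
def Stab (ok : ℕ → Prop) (V : List α) (P : α → List α) : Prop :=
  ∃ M : α → α, IsMatching V P M ∧ ∀ c, ok c.length → ¬ Blocking V P M c

end

/-- The preference list of the agent `a` of the instance `I`, whose agents are the numbers below
the length of `I`. -/
def pref (I : List (List ℕ)) (a : ℕ) : List ℕ := I.getD a []

/-- The problem `CS(L)`: all preference lists have length at most `L`, and there is a cycle stable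
matching. -/
def CS (L : ℕ) (I : List (List ℕ)) : Prop :=
  IsInst (List.range I.length) (pref I) ∧ (∀ l ∈ I, l.length ≤ L) ∧
    ∃ M : ℕ → ℕ, IsMatching (List.range I.length) (pref I) M ∧
      ∀ c, ¬ Blocking (List.range I.length) (pref I) M c

/-- The problem `CS_3(L)`: all preference lists have length at most `L`, and there is a 3-cycle
stable matching. -/
def CS3 (L : ℕ) (I : List (List ℕ)) : Prop :=
  IsInst (List.range I.length) (pref I) ∧ (∀ l ∈ I, l.length ≤ L) ∧
    ∃ M : ℕ → ℕ, IsMatching (List.range I.length) (pref I) M ∧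
      ∀ c, c.length ≤ 3 → ¬ Blocking (List.range I.length) (pref I) M c

section Transfer

variable {α β : Type} {V : List α} {P : α → List α} {f : α → β} {P' : β → List β}

theorem inst_map (hf : ∀ x ∈ V, ∀ y ∈ V, f x = f y → x = y)
    (hP : ∀ a ∈ V, P' (f a) = (P a).map f) (h : IsInst V P) : IsInst (V.map f) P' := by
  refine ⟨h.1.map_on hf, ?_⟩
  intro a' ha'
  obtain ⟨a, ha, rfl⟩ := List.mem_map.1 ha'
  obtain ⟨h1, h2⟩ := h.2 a ha
  rw [hP a ha]
  refine ⟨h1.map_on (fun x hx y hy => hf x (h2 x hx).1 y (h2 y hy).1), ?_⟩
  intro b' hb'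
  obtain ⟨b, hb, rfl⟩ := List.mem_map.1 hb'
  obtain ⟨g1, g2, g3⟩ := h2 b hb
  refine ⟨List.mem_map_of_mem g1, fun e => g2 (hf _ g1 _ ha e), ?_⟩
  rw [hP b g1]
  exact List.mem_map_of_mem g3

theorem stab_map {ok : ℕ → Prop} (hf : ∀ x ∈ V, ∀ y ∈ V, f x = f y → x = y)
    (hP : ∀ a ∈ V, P' (f a) = (P a).map f) (h : IsInst V P) (hs : Stab ok V P) :
    Stab ok (V.map f) P' := by
  classical
  obtain ⟨M, hM, hB⟩ := hs
  have hMV : ∀ a ∈ V, M a ∈ V := by
    intro a ha
    rcases hM a ha with h1 | h1
    · rw [h1]; exact ha
    · exact ((h.2 a ha).2 _ h1.1).1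
  let M' : β → β := fun y => if hy : ∃ x ∈ V, f x = y then f (M hy.choose) else y
  have hM' : ∀ x ∈ V, M' (f x) = f (M x) := by
    intro x hx
    have hy : ∃ x' ∈ V, f x' = f x := ⟨x, hx, rfl⟩
    have e1 : M' (f x) = f (M hy.choose) := dif_pos hy
    rw [e1, hf _ hy.choose_spec.1 _ hx hy.choose_spec.2]
  refine ⟨M', ?_, ?_⟩
  · intro a' ha'
    obtain ⟨a, ha, rfl⟩ := List.mem_map.1 ha'
    rw [hM' a ha, hP a ha]
    rcases hM a ha with h1 | ⟨h1, h2⟩
    · left; rw [h1]
    · right
      exact ⟨List.mem_map_of_mem h1, by rw [hM' _ (hMV a ha), h2]⟩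
  · intro c' hok hc'
    obtain ⟨c1, c2, c3, c4⟩ := hc'
    let g : β → α := fun y => if hy : ∃ x ∈ V, f x = y then hy.choose else
      (if hV : ∃ x, x ∈ V then hV.choose else
        (Classical.choice (by
          by_contra hne
          have hcn : c' = [] := by
            rcases c' with _ | ⟨y0, c'⟩
            · rfl
            · obtain ⟨x, hx, -⟩ := List.mem_map.1 (c1 y0 (by simp))
              exact absurd ⟨x, hx⟩ hV
          rw [hcn] at c3
          simp at c3)))
    have hg : ∀ y ∈ c', g y ∈ V ∧ f (g y) = y := by
      intro y hy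
      obtain ⟨x, hx, hxy⟩ := List.mem_map.1 (c1 y hy)
      have hy' : ∃ x' ∈ V, f x' = y := ⟨x, hx, hxy⟩
      have e1 : g y = hy'.choose := dif_pos hy'
      rw [e1]
      exact hy'.choose_spec
    have hcm : (c'.map g).map f = c' := by
      rw [List.map_map]
      conv_rhs => rw [← List.map_id c']
      exact List.map_congr_left (fun y hy => (hg y hy).2)
    refine hB (c'.map g) (by rw [List.length_map]; exact hok) ⟨?_, ?_, ?_, ?_⟩
    · intro a ha
      obtain ⟨y, hy, rfl⟩ := List.mem_map.1 ha
      exact (hg y hy).1
    · have : ((c'.map g).map f).Nodup := by rw [hcm]; exact c2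
      exact this.of_map
    · rw [List.length_map]; exact c3
    · intro i a b ha hb
      rw [List.length_map, List.getElem?_map, Option.map_eq_some_iff] at hb
      rw [List.getElem?_map, Option.map_eq_some_iff] at ha
      obtain ⟨y, hy, rfl⟩ := ha
      obtain ⟨z, hz, rfl⟩ := hb
      have hyc := List.mem_of_getElem? hy
      have hzc := List.mem_of_getElem? hz
      obtain ⟨g1, g2⟩ := hg y hyc
      obtain ⟨g3, g4⟩ := hg z hzc
      have hw := c4 i y z hy hz
      obtain ⟨w1, w2⟩ := hw
      rw [← g2, hP _ g1] at w1
      have hb : g z ∈ P (g y) := by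
        obtain ⟨b, hb, hb'⟩ := List.mem_map.1 w1
        rw [← g4] at hb'
        have := hf b (((h.2 _ g1).2 b hb).1) _ g3 hb'
        rwa [← this]
      refine ⟨hb, ?_⟩
      rcases w2 with w2 | w2
      · left
        rw [← g2, hM' _ g1] at w2
        exact hf _ (hMV _ g1) _ g1 w2
      · right
        rw [← g2, hP _ g1, hM' _ g1, ← g4, List.sublist_map_iff] at w2
        obtain ⟨l', hl', hl⟩ := w2
        rcases l' with _ | ⟨p, _ | ⟨q, _ | ⟨r, l'⟩⟩⟩
        · simp at hl
        · simp at hl
        · simp only [List.map_cons, List.map_nil, List.cons.injEq, and_true] at hl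
          have m1 : p ∈ P (g y) := hl'.subset (by simp)
          have m2 : q ∈ P (g y) := hl'.subset (by simp)
          have e1 := hf _ g3 _ ((h.2 _ g1).2 p m1).1 hl.1
          have e2 := hf _ (hMV _ g1) _ ((h.2 _ g1).2 q m2).1 hl.2
          rw [e1, e2]
          exact hl'
        · simp at hl

end Transfer

section Index

variable {α : Type} [DecidableEq α] {V : List α} {P : α → List α}

/-- The instance with the agents renamed by numbers. -/
noncomputable def num (V : List α) (P : α → List α) : List (List ℕ) :=
  V.map (fun x => (P x).map (index V))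

omit [DecidableEq α] in
theorem pref_num (x : α) (hx : x ∈ V) :
    pref (num V P) (index V x) = (P x).map (index V) := by
  have h1 := getElem?_index hx
  unfold pref num
  rw [List.getD_eq_getElem?_getD, List.getElem?_map, h1]
  rfl

omit [DecidableEq α] in
theorem range_num (hV : V.Nodup) : List.range (num V P).length = V.map (index V) := by
  rw [map_index hV]
  unfold num
  rw [List.length_map]

theorem inst_num (h : IsInst V P) :
    IsInst (List.range (num V P).length) (pref (num V P)) := by
  rw [range_num h.1]
  exact inst_map (fun _ hx _ hy e => index_inj hx hy e) (fun a ha => pref_num a ha) h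

theorem stab_num {ok : ℕ → Prop} (h : IsInst V P) :
    Stab ok (List.range (num V P).length) (pref (num V P)) ↔ Stab ok V P := by
  constructor
  · intro hs
    rcases hVe : V with _ | ⟨x0, V0⟩
    · exact ⟨id, fun a ha => by simp at ha, fun c _ hc => by
        obtain ⟨c1, -, c3, -⟩ := hc
        rcases c with _ | ⟨y, c⟩
        · simp at c3
        · exact absurd (c1 y (by simp)) (by simp)⟩
    rw [← hVe]
    let g : ℕ → α := fun n => V.getD n x0
    have hg : ∀ x ∈ V, g (index V x) = x := by
      intro x hx
      have := getElem?_index hx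
      show V.getD (index V x) x0 = x
      rw [List.getD_eq_getElem?_getD, this]
      rfl
    have e1 : (List.range (num V P).length).map g = V := by
      rw [range_num h.1, List.map_map]
      conv_rhs => rw [← List.map_id V]
      exact List.map_congr_left (fun x hx => hg x hx)
    have := stab_map (V := List.range (num V P).length) (f := g) (P := pref (num V P)) (P' := P)
      (ok := ok) ?_ ?_ (inst_num h) hs
    · rwa [e1] at this
    · rw [range_num h.1]
      intro x hx y hy hxy
      obtain ⟨a, ha, rfl⟩ := List.mem_map.1 hx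
      obtain ⟨b, hb, rfl⟩ := List.mem_map.1 hy
      rw [hg a ha, hg b hb] at hxy
      rw [hxy]
    · rw [range_num h.1]
      intro x hx
      obtain ⟨a, ha, rfl⟩ := List.mem_map.1 hx
      rw [hg a ha, pref_num a ha, List.map_map]
      conv_lhs => rw [← List.map_id (P a)]
      exact List.map_congr_left (fun b hb => (hg b ((h.2 a ha).2 b hb).1).symm)
  · intro hs
    rw [range_num h.1]
    exact stab_map (fun _ hx _ hy e => index_inj hx hy e) (fun a ha => pref_num a ha) h hs

end Index

end Pool.Agent.X249.CSR
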