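import Pool.Agent.X249.CSR.PX

/-!
# The roommates instance with lists of length three
-/

set_option autoImplicit false

namespace Pool.Agent.X249.CSR.G3

open Pool.Agent.NPC Pool.Agent.NPC.H632 Pool.Agent.H958R2

abbrev Fm : Type := List (ℕ × ℕ × ℕ)

/-- An agent: `(kind, ·, ·)`. -/
abbrev Cd : Type := ℕ × ℕ × ℕ

/-- The variable of the slot number `l`. -/
def vr (ψ : Fm) (l : ℕ) : ℕ :=
  if l % 3 = 0 then (ψ.getD (l / 3) (0, 0, 0)).1
  else if l % 3 = 1 then (ψ.getD (l / 3) (0, 0, 0)).2.1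
  else (ψ.getD (l / 3) (0, 0, 0)).2.2

def nx (l : ℕ) : ℕ := if l % 3 = 2 then l - 2 else l + 1

def pv (l : ℕ) : ℕ := if l % 3 = 0 then l + 2 else l - 1

/-- The number of slots. -/
def kk (ψ : Fm) : ℕ := 3 * ψ.length

def up (K l : ℕ) : ℕ := if l + 1 = K then 0 else l + 1

def dn (K l : ℕ) : ℕ := if l = 0 then K - 1 else l - 1

/-- The next agent of the ring. -/
def tp (ψ : Fm) (K : ℕ) (x : Cd) : Cd :=
  if x.1 = 1 then (2, vr ψ (pv x.2.1), pv x.2.1)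
  else if x.1 = 2 then (3, x.2.1, x.2.2)
  else if vr ψ (up K x.2.2) = x.2.1 then (1, up K x.2.2, 0) else (2, x.2.1, up K x.2.2)

/-- The previous agent of the ring. -/
def ls (ψ : Fm) (K : ℕ) (x : Cd) : Cd :=
  if x.1 = 1 then (3, vr ψ x.2.1, dn K x.2.1)
  else if x.1 = 2 then (if vr ψ x.2.2 = x.2.1 then (1, nx x.2.2, 0) else (3, x.2.1, dn K x.2.2))
  else (2, x.2.1, x.2.2)

/-- The preference lists. -/
def PL (ψ : Fm) (x : Cd) : List Cd :=
  if x.1 = 0 then [(0, nx x.2.1, 0), (1, x.2.1, 0), (0, pv x.2.1, 0)]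
  else if x.1 = 1 then [tp ψ (kk ψ) x, (0, x.2.1, 0), ls ψ (kk ψ) x]
  else [tp ψ (kk ψ) x, ls ψ (kk ψ) x]

/-- The variables. -/
def vs (ψ : Fm) : List ℕ := ψ.flatMap (fun c => [c.1, c.2.1, c.2.2])

/-- The agents. -/
def VL (ψ : Fm) : List Cd :=
  ([0, 1] : List ℕ) ×ˢ (List.range (kk ψ) ×ˢ ([0] : List ℕ)) ++
    ([2, 3] : List ℕ) ×ˢ ((vs ψ).dedup ×ˢ List.range (kk ψ))

theorem mem_VL {ψ : Fm} {s a b : ℕ} : (s, a, b) ∈ VL ψ ↔
    ((s = 0 ∨ s = 1) ∧ a < kk ψ ∧ b = 0) ∨ ((s = 2 ∨ s = 3) ∧ a ∈ vs ψ ∧ b < kk ψ) := by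
  unfold VL
  rw [List.mem_append, List.mem_product, List.mem_product, List.mem_product, List.mem_product]
  simp only [List.mem_cons, List.not_mem_nil, or_false, List.mem_dedup, List.mem_range]

theorem VL_nodup (ψ : Fm) : (VL ψ).Nodup := by
  unfold VL
  refine List.Nodup.append ?_ ?_ ?_
  · exact List.Nodup.product (by decide) (List.nodup_range.product (by decide))
  · exact List.Nodup.product (by decide) ((List.nodup_dedup _).product List.nodup_range)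
  · intro x h1 h2
    obtain ⟨s, a, b⟩ := x
    rw [List.mem_product] at h1 h2
    have h3 := h1.1
    have h4 := h2.1
    simp only [List.mem_cons, List.not_mem_nil, or_false] at h3 h4
    omega

theorem VL_cases {ψ : Fm} {x : Cd} (h : x ∈ VL ψ) :
    (∃ l, l < kk ψ ∧ x = (0, l, 0)) ∨ (∃ l, l < kk ψ ∧ x = (1, l, 0)) ∨
    (∃ v l, v ∈ vs ψ ∧ l < kk ψ ∧ x = (2, v, l)) ∨
    (∃ v l, v ∈ vs ψ ∧ l < kk ψ ∧ x = (3, v, l)) := by
  obtain ⟨s, a, b⟩ := x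
  rcases mem_VL.1 h with ⟨rfl | rfl, h2, rfl⟩ | ⟨rfl | rfl, h2, h3⟩
  · exact Or.inl ⟨a, h2, rfl⟩
  · exact Or.inr (Or.inl ⟨a, h2, rfl⟩)
  · exact Or.inr (Or.inr (Or.inl ⟨a, b, h2, h3, rfl⟩))
  · exact Or.inr (Or.inr (Or.inr ⟨a, b, h2, h3, rfl⟩))

theorem m0 {ψ : Fm} {l : ℕ} (h : l < kk ψ) : (0, l, 0) ∈ VL ψ :=
  mem_VL.2 (Or.inl ⟨Or.inl rfl, h, rfl⟩)

theorem m1 {ψ : Fm} {l : ℕ} (h : l < kk ψ) : (1, l, 0) ∈ VL ψ :=
  mem_VL.2 (Or.inl ⟨Or.inr rfl, h, rfl⟩)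

theorem m2 {ψ : Fm} {v l : ℕ} (hv : v ∈ vs ψ) (h : l < kk ψ) : (2, v, l) ∈ VL ψ :=
  mem_VL.2 (Or.inr ⟨Or.inl rfl, hv, h⟩)

theorem m3 {ψ : Fm} {v l : ℕ} (hv : v ∈ vs ψ) (h : l < kk ψ) : (3, v, l) ∈ VL ψ :=
  mem_VL.2 (Or.inr ⟨Or.inr rfl, hv, h⟩)

theorem nx_lt {ψ : Fm} {l : ℕ} (h : l < kk ψ) : nx l < kk ψ := by
  unfold kk at *; unfold nx; split_ifs <;> omega

theorem pv_lt {ψ : Fm} {l : ℕ} (h : l < kk ψ) : pv l < kk ψ := by
  unfold kk at *; unfold pv; split_ifs <;> omega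

theorem up_lt {K l : ℕ} (h : l < K) : up K l < K := by unfold up; split_ifs <;> omega

theorem dn_lt {K l : ℕ} (h : l < K) : dn K l < K := by unfold dn; split_ifs <;> omega

theorem up_dn {K l : ℕ} (h : l < K) : up K (dn K l) = l := by
  unfold up dn; split_ifs <;> omega

theorem dn_up {K l : ℕ} (h : l < K) : dn K (up K l) = l := by
  unfold up
  by_cases h1 : l + 1 = K
  · rw [if_pos h1]
    unfold dn
    rw [if_pos rfl]
    omega
  · rw [if_neg h1]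
    unfold dn
    rw [if_neg (by omega)]
    omega

theorem up_ne {ψ : Fm} {l : ℕ} (h : l < kk ψ) : up (kk ψ) l ≠ l := by
  unfold kk at *; unfold up; split_ifs <;> omega

theorem dn_ne {ψ : Fm} {l : ℕ} (h : l < kk ψ) : dn (kk ψ) l ≠ l := by
  unfold kk at *; unfold dn; split_ifs <;> omega

theorem nx_pv (l : ℕ) : nx (pv l) = l := by unfold nx pv; split_ifs <;> omega

theorem pv_nx (l : ℕ) : pv (nx l) = l := by unfold nx pv; split_ifs <;> omega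

theorem nx_nx (l : ℕ) : nx (nx l) = pv l := by unfold nx pv; split_ifs <;> omega

theorem pv_pv (l : ℕ) : pv (pv l) = nx l := by unfold nx pv; split_ifs <;> omega

theorem nx_ne_pv (l : ℕ) : nx l ≠ pv l := by unfold nx pv; split_ifs <;> omega

theorem nx_ne (l : ℕ) : nx l ≠ l := by unfold nx; split_ifs <;> omega

theorem pv_ne (l : ℕ) : pv l ≠ l := by unfold pv; split_ifs <;> omega

theorem vr_mem {ψ : Fm} {l : ℕ} (h : l < kk ψ) : vr ψ l ∈ vs ψ := by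
  unfold kk at h
  have h1 : l / 3 < ψ.length := by omega
  have h2 : ψ.getD (l / 3) (0, 0, 0) ∈ ψ := by
    rw [List.getD_eq_getElem _ _ h1]
    exact List.getElem_mem h1
  unfold vr vs
  rw [List.mem_flatMap]
  refine ⟨_, h2, ?_⟩
  split_ifs <;> simp

theorem tp1 (ψ : Fm) (K l : ℕ) : tp ψ K (1, l, 0) = (2, vr ψ (pv l), pv l) := rfl

theorem tp2 (ψ : Fm) (K v l : ℕ) : tp ψ K (2, v, l) = (3, v, l) := rfl

theorem tp3y {ψ : Fm} {K v l : ℕ} (h : vr ψ (up K l) = v) : tp ψ K (3, v, l) = (1, up K l, 0) := by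
  unfold tp; simp [h]

theorem tp3n {ψ : Fm} {K v l : ℕ} (h : vr ψ (up K l) ≠ v) : tp ψ K (3, v, l) = (2, v, up K l) := by
  unfold tp; simp [h]

theorem ls1 (ψ : Fm) (K l : ℕ) : ls ψ K (1, l, 0) = (3, vr ψ l, dn K l) := rfl

theorem ls2y {ψ : Fm} {K v l : ℕ} (h : vr ψ l = v) : ls ψ K (2, v, l) = (1, nx l, 0) := by
  unfold ls; simp [h]

theorem ls2n {ψ : Fm} {K v l : ℕ} (h : vr ψ l ≠ v) : ls ψ K (2, v, l) = (3, v, dn K l) := by
  unfold ls; simp [h]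

theorem ls3 (ψ : Fm) (K v l : ℕ) : ls ψ K (3, v, l) = (2, v, l) := rfl

theorem PL0 (ψ : Fm) (l : ℕ) : PL ψ (0, l, 0) = [(0, nx l, 0), (1, l, 0), (0, pv l, 0)] := rfl

theorem PL1 (ψ : Fm) (l : ℕ) : PL ψ (1, l, 0) =
    [(2, vr ψ (pv l), pv l), (0, l, 0), (3, vr ψ l, dn (kk ψ) l)] := rfl

theorem PL2 (ψ : Fm) (v l : ℕ) : PL ψ (2, v, l) = [(3, v, l), ls ψ (kk ψ) (2, v, l)] := rfl

theorem PL3 (ψ : Fm) (v l : ℕ) : PL ψ (3, v, l) = [tp ψ (kk ψ) (3, v, l), (2, v, l)] := rfl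

theorem inst (ψ : Fm) : IsInst (VL ψ) (PL ψ) := by
  refine ⟨VL_nodup ψ, ?_⟩
  intro x hx
  rcases VL_cases hx with ⟨l, hl, rfl⟩ | ⟨l, hl, rfl⟩ | ⟨v, l, hv, hl, rfl⟩ | ⟨v, l, hv, hl, rfl⟩
  · rw [PL0]
    refine ⟨by simp [nx_ne_pv l], ?_⟩
    intro b hb
    simp only [List.mem_cons, List.not_mem_nil, or_false] at hb
    rcases hb with rfl | rfl | rfl
    · exact ⟨m0 (nx_lt hl), by simp [nx_ne l], by rw [PL0, pv_nx]; simp⟩
    · exact ⟨m1 hl, by simp, by rw [PL1]; simp⟩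
    · exact ⟨m0 (pv_lt hl), by simp [pv_ne l], by rw [PL0, nx_pv]; simp⟩
  · rw [PL1]
    refine ⟨by simp, ?_⟩
    intro b hb
    simp only [List.mem_cons, List.not_mem_nil, or_false] at hb
    rcases hb with rfl | rfl | rfl
    · refine ⟨m2 (vr_mem (pv_lt hl)) (pv_lt hl), by simp, ?_⟩
      rw [PL2, ls2y rfl, nx_pv]; simp
    · exact ⟨m0 hl, by simp, by rw [PL0]; simp⟩
    · refine ⟨m3 (vr_mem hl) (dn_lt hl), by simp, ?_⟩
      rw [PL3, tp3y (by rw [up_dn hl]), up_dn hl]; simp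
  · rw [PL2]
    by_cases hvr : vr ψ l = v
    · rw [ls2y hvr]
      refine ⟨by simp, ?_⟩
      intro b hb
      simp only [List.mem_cons, List.not_mem_nil, or_false] at hb
      rcases hb with rfl | rfl
      · exact ⟨m3 hv hl, by simp, by rw [PL3]; simp⟩
      · refine ⟨m1 (nx_lt hl), by simp, ?_⟩
        rw [PL1, pv_nx, hvr]; simp
    · rw [ls2n hvr]
      refine ⟨by simp [(dn_ne hl).symm], ?_⟩
      intro b hb
      simp only [List.mem_cons, List.not_mem_nil, or_false] at hb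
      rcases hb with rfl | rfl
      · exact ⟨m3 hv hl, by simp, by rw [PL3]; simp⟩
      · refine ⟨m3 hv (dn_lt hl), by simp, ?_⟩
        rw [PL3, tp3n (by rw [up_dn hl]; exact hvr), up_dn hl]; simp
  · rw [PL3]
    by_cases hvr : vr ψ (up (kk ψ) l) = v
    · rw [tp3y hvr]
      refine ⟨by simp, ?_⟩
      intro b hb
      simp only [List.mem_cons, List.not_mem_nil, or_false] at hb
      rcases hb with rfl | rfl
      · refine ⟨m1 (up_lt hl), by simp, ?_⟩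
        rw [PL1, dn_up hl, hvr]; simp
      · exact ⟨m2 hv hl, by simp, by rw [PL2]; simp⟩
    · rw [tp3n hvr]
      refine ⟨by simp [up_ne hl], ?_⟩
      intro b hb
      simp only [List.mem_cons, List.not_mem_nil, or_false] at hb
      rcases hb with rfl | rfl
      · refine ⟨m2 hv (up_lt hl), by simp, ?_⟩
        rw [PL2, ls2n hvr, dn_up hl]; simp
      · exact ⟨m2 hv hl, by simp, by rw [PL2]; simp⟩

theorem PL_length (ψ : Fm) (x : Cd) : (PL ψ x).length ≤ 3 := by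
  unfold PL
  split_ifs <;> simp

end Pool.Agent.X249.CSR.G3
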