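import Pool.Agent.X249.CSR.G3

/-!
# A solution gives a cycle stable matching
-/

set_option autoImplicit false

namespace Pool.Agent.X249.CSR.G3

open Pool.Agent.NPC Pool.Agent.NPC.H632 Pool.Agent.H958R2

theorem sub_lemma {α : Type} {b y : α} : ∀ (pre post : List α), (pre ++ y :: post).Nodup →
    [b, y].Sublist (pre ++ y :: post) → b ∈ pre
  | [], post, hn, h => by
    exfalso
    rw [List.nil_append] at hn h
    have hy : y ∉ post := (List.nodup_cons.1 hn).1
    cases h with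
    | cons _ h => exact hy (h.subset (by simp))
    | cons_cons _ h => exact hy (h.subset (by simp))
  | p :: pre, post, hn, h => by
    rw [List.cons_append] at hn h
    cases h with
    | cons _ h => exact List.mem_cons_of_mem _ (sub_lemma pre post (List.nodup_cons.1 hn).2 h)
    | cons_cons _ h => exact List.mem_cons_self

theorem one3_iff {a b c : Bool} : one3 a b c = true ↔
    (a = true ∧ b = false ∧ c = false) ∨ (a = false ∧ b = true ∧ c = false) ∨
    (a = false ∧ b = false ∧ c = true) := by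
  cases a <;> cases b <;> cases c <;> simp [one3]

/-- Exactly one of the slots `l`, `nx l`, `pv l` is true. -/
theorem one_of {ψ : Fm} {τ : ℕ → Bool} (h : ∀ c ∈ ψ, one3 (τ c.1) (τ c.2.1) (τ c.2.2) = true)
    {l : ℕ} (hl : l < kk ψ) :
    (τ (vr ψ l) = true ∧ τ (vr ψ (nx l)) = false ∧ τ (vr ψ (pv l)) = false) ∨
    (τ (vr ψ l) = false ∧ τ (vr ψ (nx l)) = true ∧ τ (vr ψ (pv l)) = false) ∨
    (τ (vr ψ l) = false ∧ τ (vr ψ (nx l)) = false ∧ τ (vr ψ (pv l)) = true) := by
  unfold kk at hl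
  have hj : l / 3 < ψ.length := by omega
  have hc : ψ.getD (l / 3) (0, 0, 0) ∈ ψ := by
    rw [List.getD_eq_getElem _ _ hj]
    exact List.getElem_mem hj
  have key := one3_iff.1 (h _ hc)
  rcases (by omega : l % 3 = 0 ∨ l % 3 = 1 ∨ l % 3 = 2) with h3 | h3 | h3
  · have e1 : nx l = l + 1 := by unfold nx; split_ifs <;> omega
    have e2 : pv l = l + 2 := by unfold pv; split_ifs <;> omega
    have v0 : vr ψ l = (ψ.getD (l / 3) (0, 0, 0)).1 := by
      unfold vr; rw [if_pos h3]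
    have v1 : vr ψ (l + 1) = (ψ.getD (l / 3) (0, 0, 0)).2.1 := by
      unfold vr; rw [if_neg (by omega), if_pos (by omega), show (l + 1) / 3 = l / 3 by omega]
    have v2 : vr ψ (l + 2) = (ψ.getD (l / 3) (0, 0, 0)).2.2 := by
      unfold vr; rw [if_neg (by omega), if_neg (by omega), show (l + 2) / 3 = l / 3 by omega]
    rw [e1, e2, v0, v1, v2]
    tauto
  · have e1 : nx l = l + 1 := by unfold nx; split_ifs <;> omega
    have e2 : pv l = l - 1 := by unfold pv; split_ifs <;> omega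
    have v0 : vr ψ l = (ψ.getD (l / 3) (0, 0, 0)).2.1 := by
      unfold vr; rw [if_neg (by omega), if_pos h3]
    have v1 : vr ψ (l + 1) = (ψ.getD (l / 3) (0, 0, 0)).2.2 := by
      unfold vr; rw [if_neg (by omega), if_neg (by omega), show (l + 1) / 3 = l / 3 by omega]
    have v2 : vr ψ (l - 1) = (ψ.getD (l / 3) (0, 0, 0)).1 := by
      unfold vr; rw [if_pos (by omega), show (l - 1) / 3 = l / 3 by omega]
    rw [e1, e2, v0, v1, v2]
    tauto
  · have e1 : nx l = l - 2 := by unfold nx; split_ifs <;> omega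
    have e2 : pv l = l - 1 := by unfold pv; split_ifs <;> omega
    have v0 : vr ψ l = (ψ.getD (l / 3) (0, 0, 0)).2.2 := by
      unfold vr; rw [if_neg (by omega), if_neg (by omega)]
    have v1 : vr ψ (l - 2) = (ψ.getD (l / 3) (0, 0, 0)).1 := by
      unfold vr; rw [if_pos (by omega), show (l - 2) / 3 = l / 3 by omega]
    have v2 : vr ψ (l - 1) = (ψ.getD (l / 3) (0, 0, 0)).2.1 := by
      unfold vr; rw [if_neg (by omega), if_pos (by omega), show (l - 1) / 3 = l / 3 by omega]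
    rw [e1, e2, v0, v1, v2]
    tauto

/-- The matching of an assignment. -/
def MM (ψ : Fm) (τ : ℕ → Bool) (x : Cd) : Cd :=
  if x.1 = 0 then (if τ (vr ψ x.2.1) = true then (0, nx x.2.1, 0)
    else if τ (vr ψ (pv x.2.1)) = true then (0, pv x.2.1, 0) else (1, x.2.1, 0))
  else if x.1 = 1 then (if τ (vr ψ (pv x.2.1)) = true then tp ψ (kk ψ) x
    else if τ (vr ψ x.2.1) = true then ls ψ (kk ψ) x else (0, x.2.1, 0))
  else if x.1 = 2 then (if τ x.2.1 = true then ls ψ (kk ψ) x else tp ψ (kk ψ) x)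
  else (if τ x.2.1 = true then tp ψ (kk ψ) x else ls ψ (kk ψ) x)

/-- The rank of an agent in the order of wanting. -/
def rk (ψ : Fm) (τ : ℕ → Bool) (x : Cd) : ℕ :=
  if x.1 = 0 then (if τ (vr ψ x.2.1) = true then 0
    else if τ (vr ψ (pv x.2.1)) = true then 2 else 1)
  else if x.1 = 1 then (if τ (vr ψ (pv x.2.1)) = true then 0 else 3)
  else if x.1 = 2 then (if τ x.2.1 = true then 1 else 0)
  else (if τ x.2.1 = true then 0 else 4)

section

variable {ψ : Fm} {τ : ℕ → Bool}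

theorem M0 (l : ℕ) : MM ψ τ (0, l, 0) = if τ (vr ψ l) = true then (0, nx l, 0)
    else if τ (vr ψ (pv l)) = true then (0, pv l, 0) else (1, l, 0) := rfl

theorem M1 (l : ℕ) : MM ψ τ (1, l, 0) = if τ (vr ψ (pv l)) = true then tp ψ (kk ψ) (1, l, 0)
    else if τ (vr ψ l) = true then ls ψ (kk ψ) (1, l, 0) else (0, l, 0) := rfl

theorem M2 (v l : ℕ) : MM ψ τ (2, v, l) =
    if τ v = true then ls ψ (kk ψ) (2, v, l) else tp ψ (kk ψ) (2, v, l) := rfl

theorem M3 (v l : ℕ) : MM ψ τ (3, v, l) =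
    if τ v = true then tp ψ (kk ψ) (3, v, l) else ls ψ (kk ψ) (3, v, l) := rfl

theorem r0 (l : ℕ) : rk ψ τ (0, l, 0) = if τ (vr ψ l) = true then 0
    else if τ (vr ψ (pv l)) = true then 2 else 1 := rfl

theorem r1 (l : ℕ) : rk ψ τ (1, l, 0) = if τ (vr ψ (pv l)) = true then 0 else 3 := rfl

theorem r2 (v l : ℕ) : rk ψ τ (2, v, l) = if τ v = true then 1 else 0 := rfl

theorem r3 (v l : ℕ) : rk ψ τ (3, v, l) = if τ v = true then 0 else 4 := rfl

theorem MM_matching (h : ∀ c ∈ ψ, one3 (τ c.1) (τ c.2.1) (τ c.2.2) = true) :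
    IsMatching (VL ψ) (PL ψ) (MM ψ τ) := by
  intro x hx
  right
  rcases VL_cases hx with ⟨l, hl, rfl⟩ | ⟨l, hl, rfl⟩ | ⟨v, l, hv, hl, rfl⟩ | ⟨v, l, hv, hl, rfl⟩
  · rcases one_of h hl with ⟨h1, h2, h3⟩ | ⟨h1, h2, h3⟩ | ⟨h1, h2, h3⟩
    · have e : MM ψ τ (0, l, 0) = (0, nx l, 0) := by rw [M0, h1]; simp
      rw [e]
      refine ⟨by rw [PL0]; simp, ?_⟩
      rw [M0, h2, pv_nx, h1]; simp
    · have e : MM ψ τ (0, l, 0) = (1, l, 0) := by rw [M0, h1, h3]; simp
      rw [e]
      refine ⟨by rw [PL0]; simp, ?_⟩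
      rw [M1, h1, h3]; simp
    · have e : MM ψ τ (0, l, 0) = (0, pv l, 0) := by rw [M0, h1, h3]; simp
      rw [e]
      refine ⟨by rw [PL0]; simp, ?_⟩
      rw [M0, h3, nx_pv]; simp
  · rcases one_of h hl with ⟨h1, h2, h3⟩ | ⟨h1, h2, h3⟩ | ⟨h1, h2, h3⟩
    · have e : MM ψ τ (1, l, 0) = (3, vr ψ l, dn (kk ψ) l) := by rw [M1, h1, h3, ls1]; simp
      rw [e]
      refine ⟨by rw [PL1]; simp, ?_⟩
      rw [M3, h1, if_pos rfl, tp3y (by rw [up_dn hl]), up_dn hl]
    · have e : MM ψ τ (1, l, 0) = (0, l, 0) := by rw [M1, h1, h3]; simp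
      rw [e]
      refine ⟨by rw [PL1]; simp, ?_⟩
      rw [M0, h1, h3]; simp
    · have e : MM ψ τ (1, l, 0) = (2, vr ψ (pv l), pv l) := by rw [M1, h3, tp1]; simp
      rw [e]
      refine ⟨by rw [PL1]; simp, ?_⟩
      rw [M2, h3, if_pos rfl, ls2y rfl, nx_pv]
  · by_cases hb : τ v = true
    · by_cases hvr : vr ψ l = v
      · have e : MM ψ τ (2, v, l) = (1, nx l, 0) := by rw [M2, if_pos hb, ls2y hvr]
        rw [e]
        refine ⟨by rw [PL2, ls2y hvr]; simp, ?_⟩
        rw [M1, pv_nx, hvr, if_pos hb, tp1, pv_nx, hvr]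
      · have e : MM ψ τ (2, v, l) = (3, v, dn (kk ψ) l) := by rw [M2, if_pos hb, ls2n hvr]
        rw [e]
        refine ⟨by rw [PL2, ls2n hvr]; simp, ?_⟩
        rw [M3, if_pos hb, tp3n (by rw [up_dn hl]; exact hvr), up_dn hl]
    · have e : MM ψ τ (2, v, l) = (3, v, l) := by rw [M2, if_neg hb, tp2]
      rw [e]
      refine ⟨by rw [PL2]; simp, ?_⟩
      rw [M3, if_neg hb, ls3]
  · by_cases hb : τ v = true
    · by_cases hvr : vr ψ (up (kk ψ) l) = v
      · have e : MM ψ τ (3, v, l) = (1, up (kk ψ) l, 0) := by rw [M3, if_pos hb, tp3y hvr]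
        rw [e]
        refine ⟨by rw [PL3, tp3y hvr]; simp, ?_⟩
        rcases one_of h (up_lt hl) with ⟨h1, h2, h3⟩ | ⟨h1, h2, h3⟩ | ⟨h1, h2, h3⟩
        · rw [M1, h3, h1, ls1, dn_up hl, hvr]; simp
        · rw [hvr, hb] at h1; exact absurd h1 (by simp)
        · rw [hvr, hb] at h1; exact absurd h1 (by simp)
      · have e : MM ψ τ (3, v, l) = (2, v, up (kk ψ) l) := by rw [M3, if_pos hb, tp3n hvr]
        rw [e]
        refine ⟨by rw [PL3, tp3n hvr]; simp, ?_⟩
        rw [M2, if_pos hb, ls2n hvr, dn_up hl]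
    · have e : MM ψ τ (3, v, l) = (2, v, l) := by rw [M3, if_neg hb, ls3]
      rw [e]
      refine ⟨by rw [PL3]; simp, ?_⟩
      rw [M2, if_neg hb, tp2]

theorem wants_lt (h : ∀ c ∈ ψ, one3 (τ c.1) (τ c.2.1) (τ c.2.2) = true) {x y : Cd}
    (hx : x ∈ VL ψ) (hw : Wants (PL ψ) (MM ψ τ) x y) : rk ψ τ y < rk ψ τ x := by
  have hnd := ((inst ψ).2 x hx).1
  have hs : [y, MM ψ τ x].Sublist (PL ψ x) := by
    refine hw.2.resolve_left ?_
    intro e
    rcases MM_matching h x hx with h1 | ⟨h1, -⟩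
    · rcases MM_matching h x hx with h2 | ⟨h2, -⟩
      all_goals
        have hne : MM ψ τ x ≠ x := by
          rcases VL_cases hx with ⟨l, hl, rfl⟩ | ⟨l, hl, rfl⟩ | ⟨v, l, hv, hl, rfl⟩ |
            ⟨v, l, hv, hl, rfl⟩
          · rw [M0]
            split_ifs <;> simp [nx_ne l, pv_ne l]
          · rw [M1, tp1, ls1]
            split_ifs <;> simp
          · rw [M2, tp2]
            by_cases hvr : vr ψ l = v
            · rw [ls2y hvr]; split_ifs <;> simp
            · rw [ls2n hvr]; split_ifs <;> simp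
          · rw [M3, ls3]
            by_cases hvr : vr ψ (up (kk ψ) l) = v
            · rw [tp3y hvr]; split_ifs <;> simp
            · rw [tp3n hvr]; split_ifs <;> simp
        exact hne e
    · exact (((inst ψ).2 x hx).2 _ h1).2.1 e
  rcases VL_cases hx with ⟨l, hl, rfl⟩ | ⟨l, hl, rfl⟩ | ⟨v, l, hv, hl, rfl⟩ | ⟨v, l, hv, hl, rfl⟩
  · rw [PL0] at hs hnd
    rcases one_of h hl with ⟨h1, h2, h3⟩ | ⟨h1, h2, h3⟩ | ⟨h1, h2, h3⟩
    · have e : MM ψ τ (0, l, 0) = (0, nx l, 0) := by rw [M0, h1]; simp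
      rw [e] at hs
      exact absurd (sub_lemma [] _ hnd hs) (by simp)
    · have e : MM ψ τ (0, l, 0) = (1, l, 0) := by rw [M0, h1, h3]; simp
      rw [e] at hs
      have := sub_lemma [(0, nx l, 0)] _ hnd hs
      simp only [List.mem_cons, List.not_mem_nil, or_false] at this
      rw [this, r0, r0, h1, h2, h3]; simp
    · have e : MM ψ τ (0, l, 0) = (0, pv l, 0) := by rw [M0, h1, h3]; simp
      rw [e] at hs
      have := sub_lemma [(0, nx l, 0), (1, l, 0)] _ hnd hs
      simp only [List.mem_cons, List.not_mem_nil, or_false] at this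
      rcases this with rfl | rfl
      · rw [r0, r0, pv_nx, h1, h2, h3]; simp
      · rw [r1, r0, h1, h3]; simp
  · rw [PL1] at hs hnd
    rcases one_of h hl with ⟨h1, h2, h3⟩ | ⟨h1, h2, h3⟩ | ⟨h1, h2, h3⟩
    · have e : MM ψ τ (1, l, 0) = (3, vr ψ l, dn (kk ψ) l) := by rw [M1, h1, h3, ls1]; simp
      rw [e] at hs
      have := sub_lemma [(2, vr ψ (pv l), pv l), (0, l, 0)] _ hnd hs
      simp only [List.mem_cons, List.not_mem_nil, or_false] at this
      rcases this with rfl | rfl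
      · rw [r1, r2, h3]; simp
      · rw [r1, r0, h1, h3]; simp
    · have e : MM ψ τ (1, l, 0) = (0, l, 0) := by rw [M1, h1, h3]; simp
      rw [e] at hs
      have := sub_lemma [(2, vr ψ (pv l), pv l)] _ hnd hs
      simp only [List.mem_cons, List.not_mem_nil, or_false] at this
      rw [this, r1, r2, h3]; simp
    · have e : MM ψ τ (1, l, 0) = (2, vr ψ (pv l), pv l) := by rw [M1, h3, tp1]; simp
      rw [e] at hs
      exact absurd (sub_lemma [] _ hnd hs) (by simp)
  · rw [PL2] at hs hnd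
    by_cases hb : τ v = true
    · rw [M2, if_pos hb] at hs
      have := sub_lemma [(3, v, l)] [] hnd hs
      simp only [List.mem_cons, List.not_mem_nil, or_false] at this
      rw [this, r2, r3, hb]; simp
    · rw [M2, if_neg hb, tp2] at hs
      exact absurd (sub_lemma [] _ hnd hs) (by simp)
  · rw [PL3] at hs hnd
    by_cases hb : τ v = true
    · rw [M3, if_pos hb] at hs
      exact absurd (sub_lemma [] _ hnd hs) (by simp)
    · rw [M3, if_neg hb, ls3] at hs
      have := sub_lemma [tp ψ (kk ψ) (3, v, l)] [] hnd hs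
      simp only [List.mem_cons, List.not_mem_nil, or_false] at this
      by_cases hvr : vr ψ (up (kk ψ) l) = v
      · rw [this, tp3y hvr, r1, r3, if_neg hb]
        split_ifs <;> simp
      · rw [this, tp3n hvr, r2, r3, if_neg hb, if_neg hb]
        simp

end

/-- A solution gives a cycle stable matching. -/
theorem stab_of {ψ : Fm} (h : PX ψ) (ok : ℕ → Prop) : Stab ok (VL ψ) (PL ψ) := by
  obtain ⟨τ, hτ⟩ := h
  refine ⟨MM ψ τ, MM_matching hτ, ?_⟩
  rintro c - ⟨c1, c2, c3, c4⟩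
  have step : ∀ x ∈ c, ∃ y ∈ c, rk ψ τ y < rk ψ τ x := by
    intro x hx
    obtain ⟨i, hi, hix⟩ := List.getElem_of_mem hx
    have hj : (i + 1) % c.length < c.length := Nat.mod_lt _ (by omega)
    refine ⟨_, List.getElem_mem hj, wants_lt hτ (c1 x hx)
      (c4 i x _ ?_ (List.getElem?_eq_getElem hj))⟩
    rw [List.getElem?_eq_getElem hi, hix]
  have key : ∀ n, ∀ x ∈ c, rk ψ τ x ≠ n := by
    intro n
    induction n using Nat.strong_induction_on with
    | _ n ih =>
      intro x hx e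
      obtain ⟨y, hy, hlt⟩ := step x hx
      exact ih _ (by omega) y hy rfl
  rcases c with _ | ⟨x0, c⟩
  · simp at c3
  · exact key _ x0 (by simp) rfl

end Pool.Agent.X249.CSR.G3
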