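import Pool.Agent.X249.CSR.G3C

/-!
# A 3-cycle stable matching gives a solution
-/

set_option autoImplicit false

namespace Pool.Agent.X249.CSR.G3

open Pool.Agent.NPC Pool.Agent.NPC.H632 Pool.Agent.H958R2

theorem sat_of {ψ : Fm} (h : Stab (fun n => n ≤ 3) (VL ψ) (PL ψ)) : PX ψ := by
  classical
  obtain ⟨M, hM, hB⟩ := h
  have pair : ∀ x ∈ VL ψ, ∀ y ∈ VL ψ, x ≠ y → Wants (PL ψ) M x y → Wants (PL ψ) M y x → False := by
    intro x hx y hy hxy h1 h2
    refine hB [x, y] (by simp) ⟨by simp [hx, hy], by simp [hxy], by simp, ?_⟩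
    intro i a b ha hb
    rcases i with _ | _ | i
    · simp at ha hb
      rw [← ha, ← hb]; exact h1
    · simp at ha hb
      rw [← ha, ← hb]; exact h2
    · simp at ha
  have hinv : ∀ x ∈ VL ψ, ∀ y, M x = y → y ≠ x → M y = x := by
    intro x hx y h1 h2
    rcases hM x hx with h3 | ⟨-, h3⟩
    · exact absurd (h1.symm.trans h3) h2
    · rw [h1] at h3; exact h3
  have hmem : ∀ x ∈ VL ψ, M x ≠ x → M x ∈ PL ψ x := by
    intro x hx h1
    exact ((hM x hx).resolve_left h1).1
  -- wanting the first agent of the list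
  have whead : ∀ x ∈ VL ψ, ∀ y r, PL ψ x = y :: r → M x ≠ y → Wants (PL ψ) M x y := by
    intro x hx y r hr h1
    refine ⟨by rw [hr]; simp, ?_⟩
    rcases hM x hx with h2 | ⟨h2, -⟩
    · exact Or.inl h2
    · right
      rw [hr] at h2 ⊢
      have h3 : M x ∈ r := (List.mem_cons.1 h2).resolve_left h1
      exact (List.singleton_sublist.2 h3).cons_cons _
  -- an agent which is the first choice of an acceptable agent is assigned
  have assigned : ∀ x ∈ VL ψ, ∀ y ∈ PL ψ x, (∃ r, PL ψ y = x :: r) → M x ≠ x := by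
    rintro x hx y hy ⟨r, hr⟩ e
    obtain ⟨g1, g2, g3⟩ := ((inst ψ).2 x hx).2 y hy
    refine pair x hx y g1 g2.symm ⟨hy, Or.inl e⟩ (whead y g1 x r hr ?_)
    intro e2
    have := hinv y g1 x e2 g2.symm
    exact g2 (this.symm.trans e)
  have a1 : ∀ l, l < kk ψ → M (1, l, 0) ≠ (1, l, 0) := by
    intro l hl
    refine assigned _ (m1 hl) (3, vr ψ l, dn (kk ψ) l) (by rw [PL1]; simp) ?_
    rw [PL3, tp3y (by rw [up_dn hl]), up_dn hl]
    exact ⟨_, rfl⟩
  have a2 : ∀ v ∈ vs ψ, ∀ l, l < kk ψ → M (2, v, l) ≠ (2, v, l) := by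
    intro v hv l hl
    by_cases hvr : vr ψ l = v
    · refine assigned _ (m2 hv hl) (1, nx l, 0) (by rw [PL2, ls2y hvr]; simp) ?_
      rw [PL1, pv_nx, hvr]
      exact ⟨_, rfl⟩
    · refine assigned _ (m2 hv hl) (3, v, dn (kk ψ) l) (by rw [PL2, ls2n hvr]; simp) ?_
      rw [PL3, tp3n (by rw [up_dn hl]; exact hvr), up_dn hl]
      exact ⟨_, rfl⟩
  have a3 : ∀ v ∈ vs ψ, ∀ l, l < kk ψ → M (3, v, l) ≠ (3, v, l) := by
    intro v hv l hl
    refine assigned _ (m3 hv hl) (2, v, l) (by rw [PL3]; simp) ?_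
    rw [PL2]
    exact ⟨_, rfl⟩
  -- if `Y` is not matched with `Z`, then `Z` has its first choice
  have toZ : ∀ v ∈ vs ψ, ∀ l, l < kk ψ → M (2, v, l) ≠ (3, v, l) →
      M (3, v, l) = tp ψ (kk ψ) (3, v, l) := by
    intro v hv l hl h1
    have h2 := hmem _ (m3 hv hl) (a3 v hv l hl)
    rw [PL3] at h2
    simp only [List.mem_cons, List.not_mem_nil, or_false] at h2
    rcases h2 with h2 | h2
    · exact h2
    · exact absurd (hinv _ (m3 hv hl) _ h2 (by simp)) h1
  -- the slots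
  have g1 : ∀ l, l < kk ψ → M (3, vr ψ l, dn (kk ψ) l) = (1, l, 0) →
      M (0, l, 0) = (0, nx l, 0) := by
    intro l hl h1
    have h2 := hinv _ (m3 (vr_mem hl) (dn_lt hl)) _ h1 (by simp)
    by_contra hcon
    refine pair (1, l, 0) (m1 hl) (0, l, 0) (m0 hl) (by simp) ⟨by rw [PL1]; simp, Or.inr ?_⟩ ?_
    · rw [h2, PL1]
      exact (List.Sublist.refl _).cons _
    · refine ⟨by rw [PL0]; simp, ?_⟩
      by_cases h3 : M (0, l, 0) = (0, l, 0)
      · exact Or.inl h3
      · right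
        have h4 := hmem _ (m0 hl) h3
        rw [PL0] at h4 ⊢
        simp only [List.mem_cons, List.not_mem_nil, or_false] at h4
        rcases h4 with h4 | h4 | h4
        · exact absurd h4 hcon
        · exfalso
          have h5 := hinv _ (m0 hl) _ h4 (by simp)
          rw [h2] at h5
          simp at h5
        · rw [h4]
          exact (List.Sublist.refl _).cons _
  have g2 : ∀ l, l < kk ψ → M (0, l, 0) = (0, nx l, 0) →
      M (1, nx l, 0) = (2, vr ψ l, l) := by
    intro l hl h1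
    have h2 := hinv _ (m0 hl) _ h1 (by simp [nx_ne l])
    by_contra hcon
    have hn := nx_lt hl
    refine pair (0, nx l, 0) (m0 hn) (1, nx l, 0) (m1 hn) (by simp) ⟨by rw [PL0]; simp, Or.inr ?_⟩ ?_
    · rw [h2, PL0, pv_nx]
      exact (List.Sublist.refl _).cons _
    · refine ⟨by rw [PL1]; simp, Or.inr ?_⟩
      have h4 := hmem _ (m1 hn) (a1 _ hn)
      rw [PL1] at h4 ⊢
      simp only [List.mem_cons, List.not_mem_nil, or_false] at h4
      rcases h4 with h4 | h4 | h4
      · rw [pv_nx] at h4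
        exact absurd h4 hcon
      · exfalso
        have h5 := hinv _ (m1 hn) _ h4 (by simp)
        rw [h2] at h5
        simp at h5
      · rw [h4]
        exact (List.Sublist.refl _).cons _
  have g3 : ∀ l, l < kk ψ → M (0, l, 0) = (0, nx l, 0) →
      M (3, vr ψ l, l) = tp ψ (kk ψ) (3, vr ψ l, l) := by
    intro l hl h1
    have h2 := hinv _ (m1 (nx_lt hl)) _ (g2 l hl h1) (by simp)
    exact toZ _ (vr_mem hl) l hl (by rw [h2]; simp)
  -- one step along the ring
  have step : ∀ v ∈ vs ψ, ∀ l, l < kk ψ → M (3, v, l) = tp ψ (kk ψ) (3, v, l) →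
      M (3, v, up (kk ψ) l) = tp ψ (kk ψ) (3, v, up (kk ψ) l) := by
    intro v hv l hl h1
    by_cases hvr : vr ψ (up (kk ψ) l) = v
    · rw [tp3y hvr] at h1
      have h2 := g1 _ (up_lt hl) (by rw [dn_up hl, hvr]; exact h1)
      have h3 := g3 _ (up_lt hl) h2
      rwa [hvr] at h3
    · rw [tp3n hvr] at h1
      have h2 := hinv _ (m3 hv hl) _ h1 (by simp)
      exact toZ _ hv _ (up_lt hl) (by rw [h2]; simp [(up_ne hl).symm])
  have upto : ∀ v ∈ vs ψ, ∀ k j, k ≤ j → j < kk ψ → M (3, v, k) = tp ψ (kk ψ) (3, v, k) →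
      M (3, v, j) = tp ψ (kk ψ) (3, v, j) := by
    intro v hv k j hkj
    induction j, hkj using Nat.le_induction with
    | base => exact fun _ h => h
    | succ j hkj ih =>
      intro h1 h2
      have h3 := step v hv j (by omega) (ih (by omega) h2)
      have e : up (kk ψ) j = j + 1 := by unfold up; rw [if_neg (by omega)]
      rwa [e] at h3
  have all : ∀ v ∈ vs ψ, ∀ k j, k < kk ψ → j < kk ψ → M (3, v, k) = tp ψ (kk ψ) (3, v, k) →
      M (3, v, j) = tp ψ (kk ψ) (3, v, j) := by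
    intro v hv k j hk hj h1
    have h2 := upto v hv k (kk ψ - 1) (by omega) (by omega) h1
    have h3 := step v hv (kk ψ - 1) (by omega) h2
    have e : up (kk ψ) (kk ψ - 1) = 0 := by unfold up; rw [if_pos (by omega)]
    rw [e] at h3
    exact upto v hv 0 j (by omega) hj h3
  let τ : ℕ → Bool := fun v => decide (M (3, v, 0) = tp ψ (kk ψ) (3, v, 0))
  have hτ : ∀ l, l < kk ψ → (τ (vr ψ l) = true ↔ M (0, l, 0) = (0, nx l, 0)) := by
    intro l hl
    have h0 : τ (vr ψ l) = true ↔ M (3, vr ψ l, 0) = tp ψ (kk ψ) (3, vr ψ l, 0) :=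
      decide_eq_true_iff
    rw [h0]
    constructor
    · intro h1
      have h2 := all _ (vr_mem hl) 0 (dn (kk ψ) l) (by omega) (dn_lt hl) h1
      rw [tp3y (by rw [up_dn hl]), up_dn hl] at h2
      exact g1 l hl h2
    · intro h1
      exact all _ (vr_mem hl) l 0 hl (by omega) (g3 l hl h1)
  have two : ∀ l, l < kk ψ → M (0, l, 0) = (0, nx l, 0) →
      M (0, nx l, 0) = (0, nx (nx l), 0) → False := by
    intro l hl h1 h2
    have h3 := hinv _ (m0 hl) _ h1 (by simp [nx_ne l])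
    rw [h2, nx_nx] at h3
    simp [pv_ne l] at h3
  have want : ∀ l, l < kk ψ → M (0, l, 0) ≠ (0, nx l, 0) →
      Wants (PL ψ) M (0, l, 0) (0, nx l, 0) :=
    fun l hl h1 => whead _ (m0 hl) _ _ (PL0 ψ l) h1
  refine ⟨τ, ?_⟩
  intro c hc
  obtain ⟨j, hj, hjc⟩ := List.getElem_of_mem hc
  have hd : ψ.getD j (0, 0, 0) = c := by
    rw [List.getD_eq_getElem _ _ hj, hjc]
  have hk : kk ψ = 3 * ψ.length := rfl
  have v0 : vr ψ (3 * j) = c.1 := by
    unfold vr
    rw [if_pos (by omega), show 3 * j / 3 = j by omega, hd]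
  have v1 : vr ψ (3 * j + 1) = c.2.1 := by
    unfold vr
    rw [if_neg (by omega), if_pos (by omega), show (3 * j + 1) / 3 = j by omega, hd]
  have v2 : vr ψ (3 * j + 2) = c.2.2 := by
    unfold vr
    rw [if_neg (by omega), if_neg (by omega), show (3 * j + 2) / 3 = j by omega, hd]
  have n0 : nx (3 * j) = 3 * j + 1 := by unfold nx; rw [if_neg (by omega)]
  have n1 : nx (3 * j + 1) = 3 * j + 2 := by unfold nx; rw [if_neg (by omega)]
  have n2 : nx (3 * j + 2) = 3 * j := by unfold nx; rw [if_pos (by omega)]; omega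
  have l0 : 3 * j < kk ψ := by omega
  have l1 : 3 * j + 1 < kk ψ := by omega
  have l2 : 3 * j + 2 < kk ψ := by omega
  have t0 := hτ _ l0
  have t1 := hτ _ l1
  have t2 := hτ _ l2
  rw [v0, n0] at t0
  rw [v1, n1] at t1
  rw [v2, n2] at t2
  have x01 : ¬ (τ c.1 = true ∧ τ c.2.1 = true) := by
    rintro ⟨u1, u2⟩
    refine two _ l0 (by rw [n0]; exact t0.1 u1) (by rw [n0, n1]; exact t1.1 u2)
  have x12 : ¬ (τ c.2.1 = true ∧ τ c.2.2 = true) := by
    rintro ⟨u1, u2⟩
    refine two _ l1 (by rw [n1]; exact t1.1 u1) (by rw [n1, n2]; exact t2.1 u2)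
  have x20 : ¬ (τ c.2.2 = true ∧ τ c.1 = true) := by
    rintro ⟨u1, u2⟩
    refine two _ l2 (by rw [n2]; exact t2.1 u1) (by rw [n2, n0]; exact t0.1 u2)
  have some1 : τ c.1 = true ∨ τ c.2.1 = true ∨ τ c.2.2 = true := by
    by_contra hcon
    push Not at hcon
    obtain ⟨f0, f1, f2⟩ := hcon
    have b0 := want _ l0 (by rw [n0]; exact fun e => f0 (t0.2 e))
    have b1 := want _ l1 (by rw [n1]; exact fun e => f1 (t1.2 e))
    have b2 := want _ l2 (by rw [n2]; exact fun e => f2 (t2.2 e))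
    rw [n0] at b0
    rw [n1] at b1
    rw [n2] at b2
    refine hB [(0, 3 * j, 0), (0, 3 * j + 1, 0), (0, 3 * j + 2, 0)] (by simp)
      ⟨by simp [m0 l0, m0 l1, m0 l2], by simp, by simp, ?_⟩
    intro i a b ha hb
    rcases i with _ | _ | _ | i
    · simp at ha hb
      rw [← ha, ← hb]; exact b0
    · simp at ha hb
      rw [← ha, ← hb]; exact b1
    · simp at ha hb
      rw [← ha, ← hb]; exact b2
    · simp at ha
  rw [one3_iff]
  cases h0 : τ c.1 <;> cases h1 : τ c.2.1 <;> cases h2 : τ c.2.2 <;> simp [h0, h1, h2] at *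

end Pool.Agent.X249.CSR.G3
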