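import Pool.Agent.X249.CSR.Defs

/-!
# The roommates instance of a 3-CNF
-/

set_option autoImplicit false

namespace Pool.Agent.X249.CSR

open Pool.Agent.NPC Pool.Agent.NPC.H632

abbrev Cnf : Type := List (Lit ℕ × Lit ℕ × Lit ℕ)

/-- An agent: `(side, variable, place)`. -/
abbrev Cd : Type := ℕ × ℕ × ℕ

/-- The literal number `l`. -/
def lt (φ : Cnf) (l : ℕ) : Lit ℕ :=
  if l % 3 = 0 then (φ.getD (l / 3) ((true, 0), (true, 0), (true, 0))).1
  else if l % 3 = 1 then (φ.getD (l / 3) ((true, 0), (true, 0), (true, 0))).2.1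
  else (φ.getD (l / 3) ((true, 0), (true, 0), (true, 0))).2.2

/-- The agent of the literal number `l`. -/
def ag (φ : Cnf) (l : ℕ) : Cd := (if (lt φ l).1 = true then 0 else 1, (lt φ l).2, 2 * l)

def nx (l : ℕ) : ℕ := if l % 3 = 2 then l - 2 else l + 1

def pv (l : ℕ) : ℕ := if l % 3 = 0 then l + 2 else l - 1

def p1 (K : ℕ) (x : Cd) : Cd :=
  if x.1 = 0 then (1, x.2.1, x.2.2) else (0, x.2.1, if x.2.2 + 1 = K then 0 else x.2.2 + 1)

def p2 (K : ℕ) (x : Cd) : Cd :=
  if x.1 = 0 then (1, x.2.1, if x.2.2 = 0 then K - 1 else x.2.2 - 1) else (0, x.2.1, x.2.2)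

/-- The number of places. -/
def kk (φ : Cnf) : ℕ := 6 * φ.length

/-- The preference lists. -/
def PL (φ : Cnf) (x : Cd) : List Cd :=
  if x.2.2 % 2 = 0 ∧ ag φ (x.2.2 / 2) = x then
    [p1 (kk φ) x, ag φ (nx (x.2.2 / 2)), p2 (kk φ) x, ag φ (pv (x.2.2 / 2))]
  else [p1 (kk φ) x, p2 (kk φ) x]

/-- The agents. -/
def VL (φ : Cnf) : List Cd :=
  ([0, 1] : List ℕ) ×ˢ ((vars3 φ).dedup ×ˢ List.range (kk φ))

theorem mem_VL {φ : Cnf} {s v k : ℕ} : (s, v, k) ∈ VL φ ↔
    (s = 0 ∨ s = 1) ∧ v ∈ vars3 φ ∧ k < kk φ := by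
  unfold VL
  rw [List.mem_product, List.mem_product]
  simp only [List.mem_cons, List.not_mem_nil, or_false, List.mem_dedup, List.mem_range]

theorem VL_nodup (φ : Cnf) : (VL φ).Nodup := by
  unfold VL
  exact List.Nodup.product (by decide) ((List.nodup_dedup _).product List.nodup_range)

theorem PL_ag (φ : Cnf) (l : ℕ) : PL φ (ag φ l) =
    [p1 (kk φ) (ag φ l), ag φ (nx l), p2 (kk φ) (ag φ l), ag φ (pv l)] := by
  have h1 : (ag φ l).2.2 = 2 * l := rfl
  have h2 : 2 * l / 2 = l := by omega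
  unfold PL
  rw [h1, h2, if_pos ⟨by omega, rfl⟩]

theorem PL_cases (φ : Cnf) (x : Cd) : (∃ l, x = ag φ l) ∨ PL φ x = [p1 (kk φ) x, p2 (kk φ) x] := by
  by_cases h : x.2.2 % 2 = 0 ∧ ag φ (x.2.2 / 2) = x
  · exact Or.inl ⟨_, h.2.symm⟩
  · right
    unfold PL
    rw [if_neg h]

theorem PL_head (φ : Cnf) (x : Cd) : ∃ r, PL φ x = p1 (kk φ) x :: r := by
  unfold PL
  split_ifs
  · exact ⟨_, rfl⟩
  · exact ⟨_, rfl⟩

theorem p1_mem (φ : Cnf) (x : Cd) : p1 (kk φ) x ∈ PL φ x := by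
  obtain ⟨r, h⟩ := PL_head φ x
  rw [h]; simp

theorem p2_mem (φ : Cnf) (x : Cd) : p2 (kk φ) x ∈ PL φ x := by
  unfold PL
  split_ifs <;> simp

theorem nx_lt {m l : ℕ} (h : l < 3 * m) : nx l < 3 * m := by unfold nx; split_ifs <;> omega

theorem pv_lt {m l : ℕ} (h : l < 3 * m) : pv l < 3 * m := by unfold pv; split_ifs <;> omega

theorem nx_pv (l : ℕ) : nx (pv l) = l := by unfold nx pv; split_ifs <;> omega

theorem pv_nx (l : ℕ) : pv (nx l) = l := by unfold nx pv; split_ifs <;> omega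

theorem lt_var {φ : Cnf} {l : ℕ} (h : l < 3 * φ.length) : (lt φ l).2 ∈ vars3 φ := by
  have h1 : l / 3 < φ.length := by omega
  have h2 : φ.getD (l / 3) ((true, 0), (true, 0), (true, 0)) ∈ φ := by
    rw [List.getD_eq_getElem _ _ h1]
    exact List.getElem_mem h1
  obtain ⟨m1, m2, m3⟩ := mem_vars3 h2
  unfold lt
  split_ifs
  · exact m1
  · exact m2
  · exact m3

theorem ag_mem {φ : Cnf} {l : ℕ} (h : l < 3 * φ.length) : ag φ l ∈ VL φ := by
  unfold ag
  rw [mem_VL]
  refine ⟨?_, lt_var h, ?_⟩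
  · split_ifs <;> simp
  · unfold kk; omega

theorem ag_lt {φ : Cnf} {l : ℕ} (h : ag φ l ∈ VL φ) : l < 3 * φ.length := by
  unfold ag at h
  rw [mem_VL] at h
  have := h.2.2
  unfold kk at this
  omega

theorem p1_VL {φ : Cnf} {x : Cd} (h : x ∈ VL φ) : p1 (kk φ) x ∈ VL φ := by
  obtain ⟨s, v, k⟩ := x
  rw [mem_VL] at h
  obtain ⟨h1, h2, h3⟩ := h
  unfold p1
  simp only
  split_ifs with h4 h5
  · rw [mem_VL]; exact ⟨Or.inr rfl, h2, h3⟩
  · rw [mem_VL]; exact ⟨Or.inl rfl, h2, by omega⟩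
  · rw [mem_VL]; exact ⟨Or.inl rfl, h2, by omega⟩

theorem p2_VL {φ : Cnf} {x : Cd} (h : x ∈ VL φ) : p2 (kk φ) x ∈ VL φ := by
  obtain ⟨s, v, k⟩ := x
  rw [mem_VL] at h
  obtain ⟨h1, h2, h3⟩ := h
  unfold p2
  simp only
  split_ifs with h4 h5
  · rw [mem_VL]; exact ⟨Or.inr rfl, h2, by omega⟩
  · rw [mem_VL]; exact ⟨Or.inr rfl, h2, by omega⟩
  · rw [mem_VL]; exact ⟨Or.inl rfl, h2, h3⟩

theorem p2_p1 {φ : Cnf} {x : Cd} (h : x ∈ VL φ) : p2 (kk φ) (p1 (kk φ) x) = x := by
  obtain ⟨s, v, k⟩ := x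
  rw [mem_VL] at h
  obtain ⟨h1, h2, h3⟩ := h
  unfold p1 p2
  rcases h1 with rfl | rfl
  · simp
  · by_cases h4 : k + 1 = kk φ
    · simp [h4]; omega
    · simp [h4]

theorem p1_p2 {φ : Cnf} {x : Cd} (h : x ∈ VL φ) : p1 (kk φ) (p2 (kk φ) x) = x := by
  obtain ⟨s, v, k⟩ := x
  rw [mem_VL] at h
  obtain ⟨h1, h2, h3⟩ := h
  unfold p1 p2
  rcases h1 with rfl | rfl
  · by_cases h4 : k = 0
    · subst h4
      have : kk φ - 1 + 1 = kk φ := by omega
      simp [this]
    · have h5 : k - 1 + 1 = k := by omega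
      have h6 : k ≠ kk φ := by omega
      simp [h4, h5, h6]
  · simp

theorem p1_fst {φ : Cnf} {x : Cd} (h : x ∈ VL φ) : (p1 (kk φ) x).1 + x.1 = 1 ∧
    (p1 (kk φ) x).2.1 = x.2.1 := by
  obtain ⟨s, v, k⟩ := x
  rw [mem_VL] at h
  unfold p1
  rcases h.1 with rfl | rfl <;> simp

theorem p2_fst {φ : Cnf} {x : Cd} (h : x ∈ VL φ) : (p2 (kk φ) x).1 + x.1 = 1 ∧
    (p2 (kk φ) x).2.1 = x.2.1 := by
  obtain ⟨s, v, k⟩ := x
  rw [mem_VL] at h
  unfold p2
  rcases h.1 with rfl | rfl <;> simp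

theorem p1_ne_p2 {φ : Cnf} {x : Cd} (h : x ∈ VL φ) : p1 (kk φ) x ≠ p2 (kk φ) x := by
  obtain ⟨s, v, k⟩ := x
  rw [mem_VL] at h
  obtain ⟨h1, h2, h3⟩ := h
  have h4 : 6 ≤ kk φ := by
    unfold kk at *
    omega
  unfold p1 p2
  rcases h1 with rfl | rfl
  · simp only [if_true, ne_eq, Prod.mk.injEq, true_and]
    split_ifs <;> omega
  · simp only [ne_eq]
    norm_num
    split_ifs <;> omega

theorem ag_inj {φ : Cnf} {l l' : ℕ} (h : ag φ l = ag φ l') : l = l' := by
  have : (ag φ l).2.2 = (ag φ l').2.2 := by rw [h]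
  have h1 : (ag φ l).2.2 = 2 * l := rfl
  have h2 : (ag φ l').2.2 = 2 * l' := rfl
  omega

theorem ag_ne_p {φ : Cnf} {l l' : ℕ} (hl : ag φ l ∈ VL φ) (h : l ≠ l') :
    ag φ l' ≠ p1 (kk φ) (ag φ l) ∧ ag φ l' ≠ p2 (kk φ) (ag φ l) := by
  have hlt := ag_lt hl
  have h1 : (ag φ l).2.2 = 2 * l := rfl
  have h2 : (ag φ l').2.2 = 2 * l' := rfl
  have hk : kk φ = 6 * φ.length := rfl
  constructor
  · intro e
    have e1 : (p1 (kk φ) (ag φ l)).2.2 = 2 * l' := by rw [← e]; rfl
    unfold p1 at e1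
    rw [h1] at e1
    split_ifs at e1 <;> simp only at e1 <;> omega
  · intro e
    have e1 : (p2 (kk φ) (ag φ l)).2.2 = 2 * l' := by rw [← e]; rfl
    unfold p2 at e1
    rw [h1] at e1
    split_ifs at e1 <;> simp only at e1 <;> omega

theorem PL_nodup {φ : Cnf} {x : Cd} (h : x ∈ VL φ) : (PL φ x).Nodup := by
  rcases PL_cases φ x with ⟨l, rfl⟩ | h1
  · rw [PL_ag]
    have a1 := ag_ne_p (l' := nx l) h (by unfold nx; split_ifs <;> omega)
    have a2 := ag_ne_p (l' := pv l) h (by unfold pv; split_ifs <;> omega)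
    have a3 : ag φ (nx l) ≠ ag φ (pv l) := fun e => by
      have := ag_inj e
      unfold nx pv at this
      split_ifs at this <;> omega
    simp only [List.nodup_cons, List.mem_cons, List.not_mem_nil, or_false, not_or,
      List.nodup_nil, not_false_eq_true, and_true]
    exact ⟨⟨a1.1.symm, p1_ne_p2 h, a2.1.symm⟩, ⟨a1.2, a3⟩, a2.2.symm⟩
  · rw [h1]
    simp only [List.nodup_cons, List.mem_cons, List.not_mem_nil, or_false,
      List.nodup_nil, not_false_eq_true, and_true]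
    exact p1_ne_p2 h

theorem inst (φ : Cnf) : IsInst (VL φ) (PL φ) := by
  refine ⟨VL_nodup φ, ?_⟩
  intro x hx
  refine ⟨PL_nodup hx, ?_⟩
  have g1 : p1 (kk φ) x ∈ VL φ ∧ p1 (kk φ) x ≠ x ∧ x ∈ PL φ (p1 (kk φ) x) := by
    refine ⟨p1_VL hx, ?_, ?_⟩
    · intro e
      have := (p1_fst hx).1
      rw [e] at this
      omega
    · have := p2_mem φ (p1 (kk φ) x)
      rwa [p2_p1 hx] at this
  have g2 : p2 (kk φ) x ∈ VL φ ∧ p2 (kk φ) x ≠ x ∧ x ∈ PL φ (p2 (kk φ) x) := by
    refine ⟨p2_VL hx, ?_, ?_⟩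
    · intro e
      have := (p2_fst hx).1
      rw [e] at this
      omega
    · have := p1_mem φ (p2 (kk φ) x)
      rwa [p1_p2 hx] at this
  intro b hb
  rcases PL_cases φ x with ⟨l, rfl⟩ | h1
  · have hl := ag_lt hx
    rw [PL_ag] at hb
    simp only [List.mem_cons, List.not_mem_nil, or_false] at hb
    rcases hb with rfl | rfl | rfl | rfl
    · exact g1
    · refine ⟨ag_mem (nx_lt hl), ?_, ?_⟩
      · intro e
        have := ag_inj e
        unfold nx at this
        split_ifs at this <;> omega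
      · rw [PL_ag, pv_nx]; simp
    · exact g2
    · refine ⟨ag_mem (pv_lt hl), ?_, ?_⟩
      · intro e
        have := ag_inj e
        unfold pv at this
        split_ifs at this <;> omega
      · rw [PL_ag, nx_pv]; simp
  · rw [h1] at hb
    simp only [List.mem_cons, List.not_mem_nil, or_false] at hb
    rcases hb with rfl | rfl
    · exact g1
    · exact g2

theorem PL_length (φ : Cnf) (x : Cd) : (PL φ x).length ≤ 4 := by
  unfold PL
  split_ifs <;> simp

theorem sub_lemma {α : Type} {b y : α} : ∀ (pre post : List α), (pre ++ y :: post).Nodup →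
    [b, y].Sublist (pre ++ y :: post) → b ∈ pre
  | [], post, hn, h => by
    exfalso
    rw [List.nil_append] at hn h
    have hy : y ∉ post := (List.nodup_cons.1 hn).1
    cases h with
    | cons _ h => exact hy (h.subset (by simp))
    | cons_cons _ h => exact hy (h.subset (by simp))
  | p :: pre, post, hn, h => by
    rw [List.cons_append] at hn h
    cases h with
    | cons _ h => exact List.mem_cons_of_mem _ (sub_lemma pre post (List.nodup_cons.1 hn).2 h)
    | cons_cons _ h => exact List.mem_cons_self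

/-- The agent gets its best partner. -/
def best (τ : ℕ → Bool) (x : Cd) : Prop := x.1 = 0 ↔ τ x.2.1 = true

theorem best_ag {φ : Cnf} {τ : ℕ → Bool} {l : ℕ} :
    best τ (ag φ l) ↔ τ (lt φ l).2 = (lt φ l).1 := by
  unfold best ag
  cases h1 : (lt φ l).1 <;> cases h2 : τ (lt φ l).2 <;> simp [h2]

theorem best_p1 {φ : Cnf} {τ : ℕ → Bool} {x : Cd} (h : x ∈ VL φ) :
    best τ (p1 (kk φ) x) ↔ ¬ best τ x := by
  obtain ⟨h1, h2⟩ := p1_fst h
  unfold best
  rw [h2]
  have h3 : (p1 (kk φ) x).1 = 0 ↔ ¬ x.1 = 0 := by omega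
  rw [h3]
  tauto

theorem best_p2 {φ : Cnf} {τ : ℕ → Bool} {x : Cd} (h : x ∈ VL φ) :
    best τ (p2 (kk φ) x) ↔ ¬ best τ x := by
  obtain ⟨h1, h2⟩ := p2_fst h
  unfold best
  rw [h2]
  have h3 : (p2 (kk φ) x).1 = 0 ↔ ¬ x.1 = 0 := by omega
  rw [h3]
  tauto

theorem clause_of {φ : Cnf} {τ : ℕ → Bool} {l : ℕ} (hl : l < 3 * φ.length) (hτ : SAT3 φ → True)
    (h : ∀ c ∈ φ, τ c.1.2 = c.1.1 ∨ τ c.2.1.2 = c.2.1.1 ∨ τ c.2.2.2 = c.2.2.1)
    (h0 : ¬ best τ (ag φ l)) (h1 : ¬ best τ (ag φ (nx l))) (h2 : ¬ best τ (ag φ (nx (nx l)))) :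
    False := by
  rw [best_ag] at h0 h1 h2
  have hj : l / 3 < φ.length := by omega
  have hc : φ.getD (l / 3) ((true, 0), (true, 0), (true, 0)) ∈ φ := by
    rw [List.getD_eq_getElem _ _ hj]
    exact List.getElem_mem hj
  have key := h _ hc
  rcases (by omega : l % 3 = 0 ∨ l % 3 = 1 ∨ l % 3 = 2) with h3 | h3 | h3
  · have e1 : nx l = l + 1 := by unfold nx; split_ifs <;> omega
    have e2 : nx (l + 1) = l + 2 := by unfold nx; split_ifs <;> omega
    rw [e1, e2] at h2
    rw [e1] at h1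
    unfold lt at h0 h1 h2
    rw [if_pos h3] at h0
    rw [if_neg (by omega), if_pos (by omega), show (l + 1) / 3 = l / 3 by omega] at h1
    rw [if_neg (by omega), if_neg (by omega), show (l + 2) / 3 = l / 3 by omega] at h2
    tauto
  · have e1 : nx l = l + 1 := by unfold nx; split_ifs <;> omega
    have e2 : nx (l + 1) = l - 1 := by unfold nx; split_ifs <;> omega
    rw [e1, e2] at h2
    rw [e1] at h1
    unfold lt at h0 h1 h2
    rw [if_neg (by omega), if_pos h3] at h0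
    rw [if_neg (by omega), if_neg (by omega), show (l + 1) / 3 = l / 3 by omega] at h1
    rw [if_pos (by omega), show (l - 1) / 3 = l / 3 by omega] at h2
    tauto
  · have e1 : nx l = l - 2 := by unfold nx; split_ifs <;> omega
    have e2 : nx (l - 2) = l - 1 := by unfold nx; split_ifs <;> omega
    rw [e1, e2] at h2
    rw [e1] at h1
    unfold lt at h0 h1 h2
    rw [if_neg (by omega), if_neg (by omega)] at h0
    rw [if_pos (by omega), show (l - 2) / 3 = l / 3 by omega] at h1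
    rw [if_neg (by omega), if_pos (by omega), show (l - 1) / 3 = l / 3 by omega] at h2
    tauto

/-- A satisfying assignment gives a cycle stable matching. -/
theorem stab_of_sat {φ : Cnf} (h : SAT3 φ) (ok : ℕ → Prop) : Stab ok (VL φ) (PL φ) := by
  classical
  obtain ⟨τ, hτ⟩ := h
  let M : Cd → Cd := fun x => if best τ x then p1 (kk φ) x else p2 (kk φ) x
  have m1 : ∀ x, best τ x → M x = p1 (kk φ) x := fun x h => if_pos h
  have m2 : ∀ x, ¬ best τ x → M x = p2 (kk φ) x := fun x h => if_neg h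
  have mne : ∀ x ∈ VL φ, M x ≠ x := by
    intro x hx e
    by_cases hb : best τ x
    · rw [m1 x hb] at e
      have := (p1_fst hx).1
      rw [e] at this
      omega
    · rw [m2 x hb] at e
      have := (p2_fst hx).1
      rw [e] at this
      omega
  have wants : ∀ x ∈ VL φ, ∀ b, Wants (PL φ) M x b → ¬ best τ x ∧
      (b = p1 (kk φ) x ∨ ∃ l, x = ag φ l ∧ b = ag φ (nx l)) := by
    intro x hx b hw
    have hs := hw.2.resolve_left (mne x hx)
    have hnd := PL_nodup hx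
    by_cases hb : best τ x
    · exfalso
      rw [m1 x hb] at hs
      obtain ⟨r, hr⟩ := PL_head φ x
      rw [hr] at hs hnd
      have := sub_lemma [] r hnd hs
      simp at this
    · refine ⟨hb, ?_⟩
      rw [m2 x hb] at hs
      rcases PL_cases φ x with ⟨l, rfl⟩ | h1
      · rw [PL_ag] at hs hnd
        have := sub_lemma [p1 (kk φ) (ag φ l), ag φ (nx l)] [ag φ (pv l)] hnd hs
        simp only [List.mem_cons, List.not_mem_nil, or_false] at this
        rcases this with h2 | h2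
        · exact Or.inl h2
        · exact Or.inr ⟨l, rfl, h2⟩
      · rw [h1] at hs hnd
        have := sub_lemma [p1 (kk φ) x] [] hnd hs
        simp only [List.mem_cons, List.not_mem_nil, or_false] at this
        exact Or.inl this
  refine ⟨M, ?_, ?_⟩
  · intro x hx
    right
    by_cases hb : best τ x
    · rw [m1 x hb]
      refine ⟨p1_mem φ x, ?_⟩
      rw [m2 _ (by rw [best_p1 hx]; exact not_not.2 hb), p2_p1 hx]
    · rw [m2 x hb]
      refine ⟨p2_mem φ x, ?_⟩
      rw [m1 _ ((best_p2 hx).2 hb), p1_p2 hx]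
  · rintro c - ⟨c1, c2, c3, c4⟩
    have step : ∀ x ∈ c, ∃ y ∈ c, Wants (PL φ) M x y := by
      intro x hx
      obtain ⟨i, hi, hix⟩ := List.getElem_of_mem hx
      have hj : (i + 1) % c.length < c.length := Nat.mod_lt _ (by omega)
      refine ⟨_, List.getElem_mem hj, c4 i x _ ?_ (List.getElem?_eq_getElem hj)⟩
      rw [List.getElem?_eq_getElem hi, hix]
    have nb : ∀ x ∈ c, ¬ best τ x := by
      intro x hx
      obtain ⟨y, -, hw⟩ := step x hx
      exact (wants x (c1 x hx) y hw).1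
    have nxt : ∀ x ∈ c, ∃ l, x = ag φ l ∧ ag φ (nx l) ∈ c := by
      intro x hx
      obtain ⟨y, hy, hw⟩ := step x hx
      obtain ⟨w1, rfl | ⟨l, rfl, rfl⟩⟩ := wants x (c1 x hx) y hw
      · exact absurd ((best_p1 (c1 x hx)).2 w1) (nb _ hy)
      · exact ⟨l, rfl, hy⟩
    obtain ⟨x0, hx0⟩ : ∃ x0, x0 ∈ c := by
      rcases c with _ | ⟨x0, c⟩
      · simp at c3
      · exact ⟨x0, by simp⟩
    obtain ⟨l, rfl, h1⟩ := nxt x0 hx0
    obtain ⟨l', e, h2⟩ := nxt _ h1
    have := ag_inj e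
    subst this
    exact clause_of (ag_lt (c1 _ hx0)) (fun _ => trivial) hτ (nb _ hx0) (nb _ h1) (nb _ h2)

/-- A 3-cycle stable matching gives a satisfying assignment. -/
theorem sat_of_stab {φ : Cnf} (h : Stab (fun n => n ≤ 3) (VL φ) (PL φ)) : SAT3 φ := by
  classical
  obtain ⟨M, hM, hB⟩ := h
  have pair : ∀ x ∈ VL φ, ∀ y ∈ VL φ, x ≠ y → Wants (PL φ) M x y → Wants (PL φ) M y x → False := by
    intro x hx y hy hxy h1 h2
    refine hB [x, y] (by simp) ⟨by simp [hx, hy], by simp [hxy], by simp, ?_⟩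
    intro i a b ha hb
    rcases i with _ | _ | i
    · simp at ha hb
      rw [← ha, ← hb]; exact h1
    · simp at ha hb
      rw [← ha, ← hb]; exact h2
    · simp at ha
  have hinv : ∀ x ∈ VL φ, ∀ y, M x = y → y ≠ x → M y = x := by
    intro x hx y h1 h2
    rcases hM x hx with h3 | ⟨-, h3⟩
    · exact absurd (h1.symm.trans h3) h2
    · rw [h1] at h3; exact h3
  have w1 : ∀ y ∈ VL φ, M y ≠ p1 (kk φ) y → Wants (PL φ) M y (p1 (kk φ) y) := by
    intro y hy h1
    refine ⟨p1_mem φ y, ?_⟩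
    rcases hM y hy with h2 | ⟨h2, -⟩
    · exact Or.inl h2
    · right
      obtain ⟨r, hr⟩ := PL_head φ y
      rw [hr] at h2 ⊢
      have h3 : M y ∈ r := (List.mem_cons.1 h2).resolve_left h1
      exact (List.singleton_sublist.2 h3).cons_cons _
  have p1ne : ∀ x ∈ VL φ, p1 (kk φ) x ≠ x := by
    intro x hx e
    have := (p1_fst hx).1
    rw [e] at this
    omega
  have p2ne : ∀ x ∈ VL φ, p2 (kk φ) x ≠ x := by
    intro x hx e
    have := (p2_fst hx).1
    rw [e] at this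
    omega
  have cB : ∀ l, ag φ l ∈ VL φ → M (ag φ l) ≠ ag φ (pv l) := by
    intro l hl e
    set x := ag φ l with hx
    have hy := p2_VL hl
    have hnq := (ag_ne_p (l' := pv l) hl (by unfold pv; split_ifs <;> omega)).2
    refine pair x hl (p2 (kk φ) x) hy (p2ne x hl).symm ⟨p2_mem φ x, Or.inr ?_⟩ ?_
    · rw [e, hx, PL_ag]
      exact ((List.Sublist.refl _).cons _).cons _
    · have := w1 (p2 (kk φ) x) hy (by
        rw [p1_p2 hl]
        intro e2
        have := hinv _ hy x e2 (p2ne x hl).symm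
        rw [e] at this
        exact hnq this)
      rwa [p1_p2 hl] at this
  have c0 : ∀ x ∈ VL φ, M x = p1 (kk φ) x ∨ M x = p2 (kk φ) x := by
    intro x hx
    rcases hM x hx with h1 | ⟨h1, h2⟩
    · exfalso
      have hy := p2_VL hx
      refine pair x hx (p2 (kk φ) x) hy (p2ne x hx).symm ⟨p2_mem φ x, Or.inl h1⟩ ?_
      have := w1 (p2 (kk φ) x) hy (by
        rw [p1_p2 hx]
        intro e2
        have := hinv _ hy x e2 (p2ne x hx).symm
        rw [h1] at this
        exact p2ne x hx this.symm)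
      rwa [p1_p2 hx] at this
    · rcases PL_cases φ x with ⟨l, rfl⟩ | h3
      · rw [PL_ag] at h1
        simp only [List.mem_cons, List.not_mem_nil, or_false] at h1
        rcases h1 with h1 | h1 | h1 | h1
        · exact Or.inl h1
        · exfalso
          rw [h1] at h2
          have h4 := ag_mem (nx_lt (ag_lt hx))
          refine cB (nx l) h4 ?_
          rw [pv_nx]; exact h2
        · exact Or.inr h1
        · exact absurd h1 (cB l hx)
      · rw [h3] at h1
        simp only [List.mem_cons, List.not_mem_nil, or_false] at h1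
        exact h1
  -- the variables
  have up : ∀ v ∈ vars3 φ, ∀ k, k + 1 < kk φ → M (0, v, k) = (1, v, k) →
      M (0, v, k + 1) = (1, v, k + 1) := by
    intro v hv k hk h1
    have hx : ((0, v, k + 1) : Cd) ∈ VL φ := mem_VL.2 ⟨Or.inl rfl, hv, hk⟩
    have hx0 : ((0, v, k) : Cd) ∈ VL φ := mem_VL.2 ⟨Or.inl rfl, hv, by omega⟩
    rcases c0 _ hx with h2 | h2
    · rw [h2]; simp [p1]
    · exfalso
      have e2 : p2 (kk φ) (0, v, k + 1) = (1, v, k) := by simp [p2]
      rw [e2] at h2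
      have h3 := hinv _ hx _ h2 (by simp)
      have h4 := hinv _ hx0 _ h1 (by simp)
      rw [h3] at h4
      simp at h4
  have wrap : ∀ v ∈ vars3 φ, 0 < kk φ → M (0, v, kk φ - 1) = (1, v, kk φ - 1) →
      M (0, v, 0) = (1, v, 0) := by
    intro v hv hk h1
    have h6 : 6 ≤ kk φ := by unfold kk at *; omega
    have hx : ((0, v, 0) : Cd) ∈ VL φ := mem_VL.2 ⟨Or.inl rfl, hv, hk⟩
    have hx0 : ((0, v, kk φ - 1) : Cd) ∈ VL φ := mem_VL.2 ⟨Or.inl rfl, hv, by omega⟩
    rcases c0 _ hx with h2 | h2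
    · rw [h2]; simp [p1]
    · exfalso
      have e2 : p2 (kk φ) (0, v, 0) = (1, v, kk φ - 1) := by simp [p2]
      rw [e2] at h2
      have h3 := hinv _ hx _ h2 (by simp)
      have h4 := hinv _ hx0 _ h1 (by simp)
      rw [h3] at h4
      simp only [Prod.mk.injEq, true_and] at h4
      omega
  have upto : ∀ v ∈ vars3 φ, ∀ k j, k ≤ j → j < kk φ → M (0, v, k) = (1, v, k) →
      M (0, v, j) = (1, v, j) := by
    intro v hv k j hkj
    induction j, hkj using Nat.le_induction with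
    | base => exact fun _ h => h
    | succ j hkj ih => exact fun h1 h2 => up v hv j h1 (ih (by omega) h2)
  let τ : ℕ → Bool := fun v => decide (M (0, v, 0) = (1, v, 0))
  have hτ : ∀ v, τ v = true ↔ M (0, v, 0) = (1, v, 0) := fun v => decide_eq_true_iff
  have nb : ∀ x ∈ VL φ, ¬ best τ x → M x = p2 (kk φ) x := by
    rintro ⟨s, v, k⟩ hx hb
    have hx' := hx
    rw [mem_VL] at hx'
    obtain ⟨hs, hv, hk⟩ := hx'
    unfold best at hb
    simp only [hτ] at hb
    rcases hs with rfl | rfl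
    · have hnot : ¬ M (0, v, 0) = (1, v, 0) := fun h => hb (by simp [h])
      rcases c0 _ hx with h2 | h2
      · exfalso
        have e1 : p1 (kk φ) (0, v, k) = (1, v, k) := by simp [p1]
        rw [e1] at h2
        exact hnot (wrap v hv (by omega) (upto v hv k (kk φ - 1) (by omega) (by omega) h2))
      · exact h2
    · have hyes : M (0, v, 0) = (1, v, 0) := by
        by_contra hn
        exact hb (by simp [hn])
      have h1 := upto v hv 0 k (by omega) hk hyes
      have h2 := hinv _ (mem_VL.2 ⟨Or.inl rfl, hv, hk⟩) _ h1 (by simp)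
      rw [h2]; simp [p2]
  refine ⟨τ, ?_⟩
  intro c hc
  by_contra hcon
  push Not at hcon
  obtain ⟨f1, f2, f3⟩ := hcon
  obtain ⟨j, hj, hjc⟩ := List.getElem_of_mem hc
  have hd : φ.getD j ((true, 0), (true, 0), (true, 0)) = c := by
    rw [List.getD_eq_getElem _ _ hj, hjc]
  have l0 : lt φ (3 * j) = c.1 := by
    unfold lt
    rw [if_pos (by omega), show 3 * j / 3 = j by omega, hd]
  have l1 : lt φ (3 * j + 1) = c.2.1 := by
    unfold lt
    rw [if_neg (by omega), if_pos (by omega), show (3 * j + 1) / 3 = j by omega, hd]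
  have l2 : lt φ (3 * j + 2) = c.2.2 := by
    unfold lt
    rw [if_neg (by omega), if_neg (by omega), show (3 * j + 2) / 3 = j by omega, hd]
  have n0 : nx (3 * j) = 3 * j + 1 := by unfold nx; split_ifs <;> omega
  have n1 : nx (3 * j + 1) = 3 * j + 2 := by unfold nx; split_ifs <;> omega
  have n2 : nx (3 * j + 2) = 3 * j := by unfold nx; split_ifs <;> omega
  have a0 := ag_mem (φ := φ) (l := 3 * j) (by omega)
  have a1 := ag_mem (φ := φ) (l := 3 * j + 1) (by omega)
  have a2 := ag_mem (φ := φ) (l := 3 * j + 2) (by omega)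
  have want : ∀ l, ag φ l ∈ VL φ → ¬ best τ (ag φ l) →
      Wants (PL φ) M (ag φ l) (ag φ (nx l)) := by
    intro l hl hb
    refine ⟨by rw [PL_ag]; simp, Or.inr ?_⟩
    rw [nb _ hl hb, PL_ag]
    exact (((((List.Sublist.slnil).cons _).cons_cons _).cons_cons _).cons _)
  have b0 := want _ a0 (by rw [best_ag, l0]; exact f1)
  have b1 := want _ a1 (by rw [best_ag, l1]; exact f2)
  have b2 := want _ a2 (by rw [best_ag, l2]; exact f3)
  rw [n0] at b0
  rw [n1] at b1
  rw [n2] at b2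
  have d01 : ag φ (3 * j) ≠ ag φ (3 * j + 1) := fun e => by have := ag_inj e; omega
  have d02 : ag φ (3 * j) ≠ ag φ (3 * j + 2) := fun e => by have := ag_inj e; omega
  have d12 : ag φ (3 * j + 1) ≠ ag φ (3 * j + 2) := fun e => by have := ag_inj e; omega
  refine hB [ag φ (3 * j), ag φ (3 * j + 1), ag φ (3 * j + 2)] (by simp)
    ⟨by simp [a0, a1, a2], by simp [d01, d02, d12], by simp, ?_⟩
  intro i a b ha hb
  rcases i with _ | _ | _ | i
  · simp at ha hb
    rw [← ha, ← hb]; exact b0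
  · simp at ha hb
    rw [← ha, ← hb]; exact b1
  · simp at ha hb
    rw [← ha, ← hb]; exact b2
  · simp at ha

end Pool.Agent.X249.CSR
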