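import Pool.Agent.X249.CSR.Red3

/-!
# Membership in NP
-/

set_option autoImplicit false

namespace Pool.Agent.X249.CSR

open Pool.Agent.NPC Pool.Agent.NPC.H632

section Bef

/-- `b` comes before `c` in the list. -/
def Bef (l : List ℕ) (b c : ℕ) : Prop :=
  ∃ p ∈ l.zipIdx, ∃ q ∈ l.zipIdx, p.1 = b ∧ q.1 = c ∧ p.2 < q.2

theorem pair_index {b c : ℕ} : ∀ {l : List ℕ}, [b, c].Sublist l →
    ∃ i j : ℕ, i < j ∧ l[i]? = some b ∧ l[j]? = some c
  | [], h => by cases h
  | x :: l, h => by
    cases h with
    | cons _ h =>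
      obtain ⟨i, j, h1, h2, h3⟩ := pair_index h
      exact ⟨i + 1, j + 1, by omega, by simpa using h2, by simpa using h3⟩
    | cons_cons _ h =>
      have hc : c ∈ l := h.subset (by simp)
      obtain ⟨j, hj, hjc⟩ := List.getElem_of_mem hc
      exact ⟨0, j + 1, by omega, by simp, by simp [hj, hjc]⟩

theorem bef_iff {l : List ℕ} {b c : ℕ} : Bef l b c ↔ [b, c].Sublist l := by
  constructor
  · rintro ⟨⟨b', i⟩, hp, ⟨c', j⟩, hq, h1, h2, h3⟩
    simp only at h1 h2 h3
    subst h1; subst h2
    rw [List.mem_zipIdx_iff_getElem?] at hp hq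
    simp only at hp hq
    have e : l = l.take j ++ l.drop j := (List.take_append_drop j l).symm
    rw [e]
    have m1 : b' ∈ l.take j := by
      apply List.mem_of_getElem? (i := i)
      rw [List.getElem?_take_of_lt h3]
      exact hp
    have m2 : c' ∈ l.drop j := by
      apply List.mem_of_getElem? (i := 0)
      rw [List.getElem?_drop]
      simpa using hq
    exact (List.singleton_sublist.2 m1).append (List.singleton_sublist.2 m2)
  · intro h
    obtain ⟨i, j, h1, h2, h3⟩ := pair_index h
    refine ⟨(b, i), ?_, (c, j), ?_, rfl, rfl, h1⟩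
    · rw [List.mem_zipIdx_iff_getElem?]; exact h2
    · rw [List.mem_zipIdx_iff_getElem?]; exact h3

end Bef

section Cycle

variable {α : Type}

theorem walk_of {R : α → α → Prop} {x y : α} (h : Relation.TransGen R x y) :
    ∃ n : ℕ, 0 < n ∧ ∃ f : ℕ → α, f 0 = x ∧ f n = y ∧ ∀ i < n, R (f i) (f (i + 1)) := by
  induction h with
  | @single y h =>
    refine ⟨1, by omega, fun k => if k = 0 then x else y, by simp, by simp, ?_⟩
    intro i hi
    obtain rfl : i = 0 := by omega
    simpa using h
  | @tail y z _ h ih =>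
    obtain ⟨n, hn, f, h1, h2, h3⟩ := ih
    refine ⟨n + 1, by omega, fun k => if k ≤ n then f k else z, by simpa using h1, by simp, ?_⟩
    intro i hi
    by_cases hin : i = n
    · subst hin
      simp only [le_refl, if_true]
      rw [if_neg (by omega), h2]
      exact h
    · simp only
      rw [if_pos (by omega), if_pos (by omega)]
      exact h3 i (by omega)

theorem cycle_of {V : List α} {P : α → List α} {M : α → α} (hV : IsInst V P) {x : α}
    (h : Relation.TransGen (fun a b => a ∈ V ∧ Wants P M a b) x x) : ∃ c, Blocking V P M c := by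
  classical
  set R : α → α → Prop := fun a b => a ∈ V ∧ Wants P M a b with hR
  have hex : ∃ n : ℕ, 0 < n ∧ ∃ f : ℕ → α, f n = f 0 ∧ ∀ i < n, R (f i) (f (i + 1)) := by
    obtain ⟨n, hn, f, h1, h2, h3⟩ := walk_of h
    exact ⟨n, hn, f, by rw [h1, h2], h3⟩
  obtain ⟨h1, f, h2, h3⟩ := Nat.find_spec hex
  have hmin := fun m => @Nat.find_min _ _ hex m
  set n := Nat.find hex with hn
  have hinj : ∀ i j, i < j → j < n → f i ≠ f j := by
    intro i j hij hj e
    refine hmin (j - i) (by omega) ⟨by omega, fun k => f (i + k), ?_, ?_⟩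
    · show f (i + (j - i)) = f (i + 0)
      rw [show i + (j - i) = j by omega, Nat.add_zero, e]
    · intro k hk
      exact h3 (i + k) (by omega)
  have hn2 : 2 ≤ n := by
    by_contra hlt
    have hn1 : n = 1 := by omega
    have h4 := h3 0 (by omega)
    rw [hn1] at h2
    rw [Nat.zero_add, h2] at h4
    exact ((hV.2 _ h4.1).2 _ h4.2.1).2.1 rfl
  refine ⟨(List.range n).map f, ?_, ?_, ?_, ?_⟩
  · intro a ha
    obtain ⟨i, hi, rfl⟩ := List.mem_map.1 ha
    exact (h3 i (List.mem_range.1 hi)).1
  · refine List.nodup_range.map_on ?_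
    intro i hi j hj e
    rw [List.mem_range] at hi hj
    rcases lt_trichotomy i j with hij | hij | hij
    · exact absurd e (hinj i j hij hj)
    · exact hij
    · exact absurd e.symm (hinj j i hij hi)
  · simpa using hn2
  · intro i a b ha hb
    rw [List.length_map, List.length_range] at hb
    have key : ∀ k y, ((List.range n).map f)[k]? = some y → k < n ∧ f k = y := by
      intro k y hk
      obtain ⟨hk1, hk2⟩ := List.getElem?_eq_some_iff.1 hk
      rw [List.length_map, List.length_range] at hk1
      refine ⟨hk1, ?_⟩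
      rw [← hk2]
      simp
    obtain ⟨hi, rfl⟩ := key _ _ ha
    obtain ⟨-, rfl⟩ := key _ _ hb
    have h4 := (h3 i hi).2
    by_cases h5 : i + 1 = n
    · rw [h5, Nat.mod_self, ← h2, ← h5]
      exact h4
    · rw [Nat.mod_eq_of_lt (by omega)]
      exact h4

/-- There is no blocking cycle iff there is a ranking. -/
theorem rank_iff {V : List α} {P : α → List α} {M : α → α} (hV : IsInst V P) :
    (∀ c, ¬ Blocking V P M c) ↔ ∃ r : α → ℕ, (∀ a, r a ≤ V.length) ∧
      ∀ a ∈ V, ∀ b, Wants P M a b → r b < r a := by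
  classical
  constructor
  · intro h
    set R : α → α → Prop := fun a b => a ∈ V ∧ Wants P M a b with hR
    have hirr : ∀ x, ¬ Relation.TransGen R x x := by
      intro x hx
      obtain ⟨c, hc⟩ := cycle_of hV hx
      exact h c hc
    refine ⟨fun a => (V.toFinset.filter (fun b => Relation.TransGen R a b)).card, ?_, ?_⟩
    · intro a
      exact (Finset.card_filter_le _ _).trans (List.toFinset_card_le _)
    · intro a ha b hw
      apply Finset.card_lt_card
      refine Finset.ssubset_iff_subset_ne.2 ⟨?_, ?_⟩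
      · intro c hc
        rw [Finset.mem_filter] at hc ⊢
        exact ⟨hc.1, Relation.TransGen.head ⟨ha, hw⟩ hc.2⟩
      · intro e
        have hb : b ∈ V.toFinset.filter (fun c => Relation.TransGen R a c) := by
          rw [Finset.mem_filter, List.mem_toFinset]
          exact ⟨((hV.2 a ha).2 b hw.1).1, Relation.TransGen.single ⟨ha, hw⟩⟩
        rw [← e, Finset.mem_filter] at hb
        exact hirr b hb.2
  · rintro ⟨r, -, hr⟩ c ⟨c1, c2, c3, c4⟩
    have step : ∀ x ∈ c, ∃ y ∈ c, r y < r x := by
      intro x hx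
      obtain ⟨i, hi, hix⟩ := List.getElem_of_mem hx
      have hj : (i + 1) % c.length < c.length := Nat.mod_lt _ (by omega)
      refine ⟨_, List.getElem_mem hj, hr x (c1 x hx) _
        (c4 i x _ ?_ (List.getElem?_eq_getElem hj))⟩
      rw [List.getElem?_eq_getElem hi, hix]
    have key : ∀ n, ∀ x ∈ c, r x ≠ n := by
      intro n
      induction n using Nat.strong_induction_on with
      | _ n ih =>
        intro x hx e
        obtain ⟨y, hy, hlt⟩ := step x hx
        exact ih _ (by omega) y hy rfl
    rcases c with _ | ⟨x0, c⟩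
    · simp at c3
    · exact key _ x0 (by simp) rfl

/-- There is no blocking cycle of length at most 3 iff no pair and no triple blocks. -/
theorem short_iff {V : List α} {P : α → List α} {M : α → α} (hV : IsInst V P) :
    (∀ c : List α, c.length ≤ 3 → ¬ Blocking V P M c) ↔
      (∀ a ∈ V, ∀ b ∈ P a, ¬ (Wants P M a b ∧ Wants P M b a)) ∧
      ∀ a ∈ V, ∀ b ∈ P a, ∀ c ∈ P b, ¬ (Wants P M a b ∧ Wants P M b c ∧ Wants P M c a) := by
  constructor
  · intro h
    constructor
    · rintro a ha b hb ⟨h1, h2⟩
      obtain ⟨g1, g2, -⟩ := (hV.2 a ha).2 b hb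
      refine h [a, b] (by simp) ⟨by simp [ha, g1], by simp [g2.symm], by simp, ?_⟩
      intro i x y hx hy
      rcases i with _ | _ | i
      · simp at hx hy
        rw [← hx, ← hy]; exact h1
      · simp at hx hy
        rw [← hx, ← hy]; exact h2
      · simp at hx
    · rintro a ha b hb c hc ⟨h1, h2, h3⟩
      obtain ⟨g1, g2, -⟩ := (hV.2 a ha).2 b hb
      obtain ⟨g3, g4, -⟩ := (hV.2 b g1).2 c hc
      obtain ⟨-, g5, -⟩ := (hV.2 c g3).2 a h3.1
      refine h [a, b, c] (by simp) ⟨by simp [ha, g1, g3], by simp [g2.symm, g4.symm, g5], by simp, ?_⟩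
      intro i x y hx hy
      rcases i with _ | _ | _ | i
      · simp at hx hy
        rw [← hx, ← hy]; exact h1
      · simp at hx hy
        rw [← hx, ← hy]; exact h2
      · simp at hx hy
        rw [← hx, ← hy]; exact h3
      · simp at hx
  · rintro ⟨h1, h2⟩ c hc3 ⟨c1, c2, c3, c4⟩
    rcases c with _ | ⟨a, _ | ⟨b, _ | ⟨d, _ | ⟨e, c⟩⟩⟩⟩
    · simp at c3
    · simp at c3
    · have w1 := c4 0 a b (by simp) (by simp)
      have w2 := c4 1 b a (by simp) (by simp)
      exact h1 a (c1 a (by simp)) b w1.1 ⟨w1, w2⟩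
    · have w1 := c4 0 a b (by simp) (by simp)
      have w2 := c4 1 b d (by simp) (by simp)
      have w3 := c4 2 d a (by simp) (by simp)
      exact h2 a (c1 a (by simp)) b w1.1 d w2.1 ⟨w1, w2, w3⟩
    · simp at hc3
      omega

end Cycle

end Pool.Agent.X249.CSR
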