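import Pool.Agent.X249.CSR.InNP

/-!
# Membership in NP
-/

set_option autoImplicit false

namespace Pool.Agent.X249.CSR

open Pool.Agent.NPC Pool.Agent.NPC.H632

/-- The function coded by a list. -/
def mt (w : List ℕ) (a : ℕ) : ℕ := w.getD a 0

def Wd (I : List (List ℕ)) (m : List ℕ) (a b : ℕ) : Prop :=
  b ∈ pref I a ∧ (mt m a = a ∨ Bef (pref I a) b (mt m a))

theorem wd_iff {I : List (List ℕ)} {m : List ℕ} {a b : ℕ} :
    Wd I m a b ↔ Wants (pref I) (mt m) a b := by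
  unfold Wd Wants
  rw [bef_iff]

/-- The instance is an instance and the list codes a matching. -/
def Base (L : ℕ) (r : List ℕ) (I : List (List ℕ)) (m : List ℕ) : Prop :=
  (∀ a ∈ r, (pref I a).Nodup ∧ ∀ b ∈ pref I a, b ∈ r ∧ b ≠ a ∧ a ∈ pref I b) ∧
  (∀ l ∈ I, l.length ≤ L) ∧
  ∀ a ∈ r, mt m a = a ∨ (mt m a ∈ pref I a ∧ mt m (mt m a) = a)

def Rel (L : ℕ) (I : List (List ℕ)) (w : List ℕ × List ℕ) : Prop :=
  Base L (List.range I.length) I w.1 ∧ ∀ a ∈ List.range I.length, ∀ b ∈ pref I a,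
    Wd I w.1 a b → mt w.2 b < mt w.2 a

def Rel3 (L : ℕ) (I : List (List ℕ)) (m : List ℕ) : Prop :=
  Base L (List.range I.length) I m ∧
  (∀ a ∈ List.range I.length, ∀ b ∈ pref I a, ¬ (Wd I m a b ∧ Wd I m b a)) ∧
  ∀ a ∈ List.range I.length, ∀ b ∈ pref I a, ∀ c ∈ pref I b,
    ¬ (Wd I m a b ∧ Wd I m b c ∧ Wd I m c a)

theorem base_iff {L : ℕ} {I : List (List ℕ)} {m : List ℕ} :
    Base L (List.range I.length) I m ↔ IsInst (List.range I.length) (pref I) ∧
      (∀ l ∈ I, l.length ≤ L) ∧ IsMatching (List.range I.length) (pref I) (mt m) := by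
  unfold Base IsInst IsMatching
  have := List.nodup_range (n := I.length)
  tauto

/-- The code of a function. -/
def cd (n : ℕ) (M : ℕ → ℕ) : List ℕ := (List.range n).map M

theorem mt_cd {n : ℕ} {M : ℕ → ℕ} {a : ℕ} (h : a < n) : mt (cd n M) a = M a := by
  unfold mt cd
  rw [List.getD_eq_getElem?_getD, List.getElem?_map, List.getElem?_range h]
  rfl

theorem sz_cd {n N : ℕ} {M : ℕ → ℕ} (hn : n ≤ N) (h : ∀ a, a < n → M a ≤ N) :
    sz (cd n M) ≤ N * (4 * N + 2) + 1 := by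
  have h1 : sz (cd n M) ≤ (cd n M).length * ((4 * N + 1) + 1) + 1 := by
    apply sz_le_length_mul
    intro x hx
    unfold cd at hx
    obtain ⟨a, ha, rfl⟩ := List.mem_map.1 hx
    have := sz_nat_le_linear (M a)
    have := h a (List.mem_range.1 ha)
    omega
  refine h1.trans ?_
  have : (cd n M).length = n := by unfold cd; simp
  rw [this]
  have : n * (4 * N + 1 + 1) ≤ N * (4 * N + 2) := Nat.mul_le_mul hn (by omega)
  omega

theorem wants_congr {P : ℕ → List ℕ} {M M' : ℕ → ℕ} {a b : ℕ} (h : M a = M' a) :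
    Wants P M a b ↔ Wants P M' a b := by
  unfold Wants
  rw [h]

theorem matching_cd {P : ℕ → List ℕ} {M : ℕ → ℕ} {n : ℕ} (hI : IsInst (List.range n) P)
    (h : IsMatching (List.range n) P M) : IsMatching (List.range n) P (mt (cd n M)) ∧
      ∀ a, a < n → M a < n := by
  have hlt : ∀ a, a < n → M a < n := by
    intro a ha
    rcases h a (List.mem_range.2 ha) with h1 | ⟨h1, -⟩
    · rw [h1]; exact ha
    · exact List.mem_range.1 ((hI.2 a (List.mem_range.2 ha)).2 _ h1).1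
  refine ⟨?_, hlt⟩
  intro a ha
  have ha' := List.mem_range.1 ha
  rw [mt_cd ha', mt_cd (hlt a ha')]
  exact h a ha

theorem rel_iff (L : ℕ) (I : List (List ℕ)) : CS L I ↔ ∃ w,
    sz w ≤ (Polynomial.C 2 * (Polynomial.X * (Polynomial.C 4 * Polynomial.X + Polynomial.C 2) +
      Polynomial.C 1) + Polynomial.C 1 : Polynomial ℕ).eval (sz I) ∧ Rel L I w := by
  unfold CS Rel
  constructor
  · rintro ⟨h1, h2, M, hM, hB⟩
    obtain ⟨r, hr1, hr2⟩ := (rank_iff h1).1 hB
    obtain ⟨g1, g2⟩ := matching_cd h1 hM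
    rw [List.length_range] at hr1
    have hlen := (length_lt_sz I).le
    refine ⟨(cd I.length M, cd I.length r), ?_, ?_, ?_⟩
    · rw [sz_pair]
      have e1 := sz_cd (M := M) hlen (fun a ha => ((g2 a ha).le.trans hlen))
      have e2 := sz_cd (M := r) hlen (fun a _ => (hr1 a).trans hlen)
      simp only [Polynomial.eval_add, Polynomial.eval_mul, Polynomial.eval_C, Polynomial.eval_X]
      omega
    · exact base_iff.2 ⟨h1, h2, g1⟩
    · intro a ha b hb hw
      have ha' := List.mem_range.1 ha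
      have hb' := List.mem_range.1 ((h1.2 a ha).2 b hb).1
      rw [mt_cd ha', mt_cd hb']
      refine hr2 a ha b ?_
      exact (wants_congr (mt_cd ha')).1 (wd_iff.1 hw)
  · rintro ⟨w, -, hb, hr⟩
    obtain ⟨h1, h2, h3⟩ := base_iff.1 hb
    refine ⟨h1, h2, mt w.1, h3, ?_⟩
    rintro c ⟨c1, c2, c3, c4⟩
    have step : ∀ x ∈ c, ∃ y ∈ c, mt w.2 y < mt w.2 x := by
      intro x hx
      obtain ⟨i, hi, hix⟩ := List.getElem_of_mem hx
      have hj : (i + 1) % c.length < c.length := Nat.mod_lt _ (by omega)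
      have hw := c4 i x _ (by rw [List.getElem?_eq_getElem hi, hix])
        (List.getElem?_eq_getElem hj)
      exact ⟨_, List.getElem_mem hj, hr x (c1 x hx) _ hw.1 (wd_iff.2 hw)⟩
    have key : ∀ n, ∀ x ∈ c, mt w.2 x ≠ n := by
      intro n
      induction n using Nat.strong_induction_on with
      | _ n ih =>
        intro x hx e
        obtain ⟨y, hy, hlt⟩ := step x hx
        exact ih _ (by omega) y hy rfl
    rcases c with _ | ⟨x0, c⟩
    · simp at c3
    · exact key _ x0 (by simp) rfl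

theorem rel3_iff (L : ℕ) (I : List (List ℕ)) : CS3 L I ↔ ∃ w,
    sz w ≤ (Polynomial.X * (Polynomial.C 4 * Polynomial.X + Polynomial.C 2) +
      Polynomial.C 1 : Polynomial ℕ).eval (sz I) ∧ Rel3 L I w := by
  unfold CS3 Rel3
  constructor
  · rintro ⟨h1, h2, M, hM, hB⟩
    obtain ⟨g1, g2⟩ := matching_cd h1 hM
    obtain ⟨b1, b2⟩ := (short_iff h1).1 hB
    have hlen := (length_lt_sz I).le
    have hw : ∀ a ∈ List.range I.length, ∀ b, Wd I (cd I.length M) a b → Wants (pref I) M a b :=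
      fun a ha b h => (wants_congr (mt_cd (List.mem_range.1 ha))).1 (wd_iff.1 h)
    refine ⟨cd I.length M, ?_, base_iff.2 ⟨h1, h2, g1⟩, ?_, ?_⟩
    · have e1 := sz_cd (M := M) hlen (fun a ha => ((g2 a ha).le.trans hlen))
      simp only [Polynomial.eval_add, Polynomial.eval_mul, Polynomial.eval_C, Polynomial.eval_X]
      exact e1
    · rintro a ha b hb ⟨u1, u2⟩
      exact b1 a ha b hb ⟨hw a ha b u1, hw b ((h1.2 a ha).2 b hb).1 a u2⟩
    · rintro a ha b hb c hc ⟨u1, u2, u3⟩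
      have hbV := ((h1.2 a ha).2 b hb).1
      exact b2 a ha b hb c hc ⟨hw a ha b u1, hw b hbV c u2, hw c ((h1.2 b hbV).2 c hc).1 a u3⟩
  · rintro ⟨w, -, hb, hr1, hr2⟩
    obtain ⟨h1, h2, h3⟩ := base_iff.1 hb
    refine ⟨h1, h2, mt w, h3, (short_iff h1).2 ⟨?_, ?_⟩⟩
    · rintro a ha b hb ⟨u1, u2⟩
      exact hr1 a ha b hb ⟨wd_iff.2 u1, wd_iff.2 u2⟩
    · rintro a ha b hb c hc ⟨u1, u2, u3⟩
      exact hr2 a ha b hb c hc ⟨wd_iff.2 u1, wd_iff.2 u2, wd_iff.2 u3⟩

section

variable {α : Type} [TEnc α]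

@[fun_prop]
theorem poly_pref {I : α → List (List ℕ)} {a : α → ℕ} (hI : Poly I) (ha : Poly a) :
    Poly (fun x => pref (I x) (a x)) := by
  unfold pref
  fun_prop

@[fun_prop]
theorem poly_mt {w : α → List ℕ} {a : α → ℕ} (hw : Poly w) (ha : Poly a) :
    Poly (fun x => mt (w x) (a x)) := by
  unfold mt
  fun_prop

@[fun_prop]
theorem dec_bef {l : α → List ℕ} {b c : α → ℕ} [inst : ∀ x, Decidable (Bef (l x) (b x) (c x))]
    (hl : Poly l) (hb : Poly b) (hc : Poly c) :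
    Poly (fun x => @decide (Bef (l x) (b x) (c x)) (inst x)) := by
  unfold Bef
  fun_prop

@[fun_prop]
theorem dec_wd {I : α → List (List ℕ)} {m : α → List ℕ} {a b : α → ℕ}
    [inst : ∀ x, Decidable (Wd (I x) (m x) (a x) (b x))] (hI : Poly I) (hm : Poly m)
    (ha : Poly a) (hb : Poly b) :
    Poly (fun x => @decide (Wd (I x) (m x) (a x) (b x)) (inst x)) := by
  unfold Wd
  fun_prop

@[fun_prop]
theorem dec_base {L : ℕ} {r : α → List ℕ} {I : α → List (List ℕ)} {m : α → List ℕ}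
    [inst : ∀ x, Decidable (Base L (r x) (I x) (m x))] (hr : Poly r) (hI : Poly I)
    (hm : Poly m) : Poly (fun x => @decide (Base L (r x) (I x) (m x)) (inst x)) := by
  unfold Base
  fun_prop

end

theorem poly_rel (L : ℕ) : Poly (fun x : List (List ℕ) × (List ℕ × List ℕ) =>
    @decide (Rel L x.1 x.2) (Classical.propDecidable _)) := by
  have key : ∀ {r : List (List ℕ) × (List ℕ × List ℕ) → List ℕ}, Poly r → Poly (fun x =>
      @decide (Base L (r x) x.1 x.2.1 ∧ ∀ a ∈ r x, ∀ b ∈ pref x.1 a,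
        Wd x.1 x.2.1 a b → mt x.2.2 b < mt x.2.2 a) (Classical.propDecidable _)) := by
    intro r hr
    fun_prop
  exact key (UPoly.range (UPoly.length (by fun_prop)))

theorem poly_rel3 (L : ℕ) : Poly (fun x : List (List ℕ) × List ℕ =>
    @decide (Rel3 L x.1 x.2) (Classical.propDecidable _)) := by
  have key : ∀ {r : List (List ℕ) × List ℕ → List ℕ}, Poly r → Poly (fun x =>
      @decide (Base L (r x) x.1 x.2 ∧
        (∀ a ∈ r x, ∀ b ∈ pref x.1 a, ¬ (Wd x.1 x.2 a b ∧ Wd x.1 x.2 b a)) ∧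
        ∀ a ∈ r x, ∀ b ∈ pref x.1 a, ∀ c ∈ pref x.1 b,
          ¬ (Wd x.1 x.2 a b ∧ Wd x.1 x.2 b c ∧ Wd x.1 x.2 c a)) (Classical.propDecidable _)) := by
    intro r hr
    fun_prop
  exact key (UPoly.range (UPoly.length (by fun_prop)))

theorem inNP (L : ℕ) : InNPP (CS L) := inNPP_rel (poly_rel L) _ (rel_iff L)

theorem inNP3 (L : ℕ) : InNPP (CS3 L) := inNPP_rel (poly_rel3 L) _ (rel3_iff L)

end Pool.Agent.X249.CSR
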