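import Pool.Agent.X249.CSR.Defs
import Pool.Agent.H958R2.NLT.X13Hard

set_option autoImplicit false

namespace Pool.Agent.X249.CSR

open Pool.Agent.NPC Pool.Agent.NPC.H632 Pool.Agent.H958R2

/-- The slots of the clauses hold variables; exactly one slot of each clause is true. -/
def PX (ψ : List (ℕ × ℕ × ℕ)) : Prop :=
  ∃ τ : ℕ → Bool, ∀ c ∈ ψ, one3 (τ c.1) (τ c.2.1) (τ c.2.2) = true

/-- The variable of a literal. -/
def lv (x : Lit ℕ) : ℕ := 2 * x.2 + (if x.1 = true then 1 else 0) + 2

def pos (φ : List (Lit ℕ × Lit ℕ × Lit ℕ)) : List (ℕ × ℕ × ℕ) :=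
  (0, 0, 1) :: (φ.map (fun c => (lv c.1, lv c.2.1, lv c.2.2)) ++
    (vars3 φ).map (fun v => (lv (true, v), lv (false, v), 0)))

theorem pos_corr (φ : List (Lit ℕ × Lit ℕ × Lit ℕ)) : X13 φ ↔ PX (pos φ) := by
  constructor
  · rintro ⟨τ, hτ⟩
    let τ' : ℕ → Bool := fun n => if n = 0 then false else if n = 1 then true else
      if n % 2 = 1 then τ ((n - 2) / 2) else !τ ((n - 2) / 2)
    have h0 : τ' 0 = false := rfl
    have h1 : τ' 1 = true := rfl
    have hl : ∀ x : Lit ℕ, τ' (lv x) = (τ x.2 == x.1) := by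
      rintro ⟨b, v⟩
      show (if lv (b, v) = 0 then false else if lv (b, v) = 1 then true else
        if lv (b, v) % 2 = 1 then τ ((lv (b, v) - 2) / 2) else !τ ((lv (b, v) - 2) / 2)) = _
      unfold lv
      cases b
      · simp only [Bool.false_eq_true, if_false]
        rw [if_neg (by omega), if_neg (by omega), if_neg (by omega),
          show (2 * v + 0 + 2 - 2) / 2 = v by omega]
        cases τ v <;> rfl
      · simp only [if_true]
        rw [if_neg (by omega), if_neg (by omega), if_pos (by omega),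
          show (2 * v + 1 + 2 - 2) / 2 = v by omega]
        cases τ v <;> rfl
    refine ⟨τ', ?_⟩
    intro c hc
    unfold pos at hc
    rcases List.mem_cons.1 hc with rfl | hc
    · show one3 (τ' 0) (τ' 0) (τ' 1) = true
      rw [h0, h1]; rfl
    rcases List.mem_append.1 hc with hc | hc
    · obtain ⟨d, hd, rfl⟩ := List.mem_map.1 hc
      simp only [hl]
      exact hτ d hd
    · obtain ⟨v, hv, rfl⟩ := List.mem_map.1 hc
      simp only [hl, h0]
      cases τ v <;> rfl
  · rintro ⟨τ', hτ⟩
    have h0 : τ' 0 = false := by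
      have := hτ (0, 0, 1) (by unfold pos; exact List.mem_cons_self)
      revert this
      simp only
      cases τ' 0 <;> cases τ' 1 <;> simp [one3]
    let τ : ℕ → Bool := fun v => τ' (lv (true, v))
    have hl : ∀ x : Lit ℕ, x.2 ∈ vars3 φ → τ' (lv x) = (τ x.2 == x.1) := by
      rintro ⟨b, v⟩ hv
      have := hτ (lv (true, v), lv (false, v), 0) (by
        unfold pos
        exact List.mem_cons_of_mem _ (List.mem_append_right _ (List.mem_map_of_mem hv)))
      simp only [h0] at this
      show τ' (lv (b, v)) = (τ' (lv (true, v)) == b)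
      cases b
      · revert this
        cases τ' (lv (true, v)) <;> cases τ' (lv (false, v)) <;> simp [one3]
      · cases τ' (lv (true, v)) <;> rfl
    refine ⟨τ, ?_⟩
    intro c hc
    obtain ⟨m1, m2, m3⟩ := mem_vars3 hc
    have := hτ (lv c.1, lv c.2.1, lv c.2.2) (by
      unfold pos
      exact List.mem_cons_of_mem _ (List.mem_append_left _
        (List.mem_map.2 ⟨c, hc, rfl⟩)))
    simp only at this
    rw [hl _ m1, hl _ m2, hl _ m3] at this
    exact this

theorem poly_pos : Poly pos := by
  unfold pos vars3 lv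
  fun_prop

theorem hardI_PX : HardI PX := Pool.Agent.NPC.H958NLT.hardPr_X13.toHardI.trans poly_pos pos_corr

end Pool.Agent.X249.CSR
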