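import Pool.Agent.X249.CSR.Gad

/-!
# The reduction
-/

set_option autoImplicit false

namespace Pool.Agent.X249.CSR

open Pool.Agent.NPC Pool.Agent.NPC.H632

/-- The reduction. -/
noncomputable def red (φ : Cnf) : List (List ℕ) := num (VL φ) (PL φ)

theorem red_length (φ : Cnf) : ∀ l ∈ red φ, l.length ≤ 4 := by
  intro l hl
  unfold red num at hl
  obtain ⟨x, -, rfl⟩ := List.mem_map.1 hl
  rw [List.length_map]
  exact PL_length φ x

theorem red_corr3 {L : ℕ} (hL : 4 ≤ L) (φ : Cnf) : SAT3 φ ↔ CS3 L (red φ) := by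
  constructor
  · intro h
    refine ⟨inst_num (inst φ), fun l hl => (red_length φ l hl).trans hL, ?_⟩
    exact (stab_num (ok := fun n => n ≤ 3) (inst φ)).2 (stab_of_sat h _)
  · rintro ⟨-, -, h⟩
    exact sat_of_stab ((stab_num (ok := fun n => n ≤ 3) (inst φ)).1 h)

theorem red_corr {L : ℕ} (hL : 4 ≤ L) (φ : Cnf) : SAT3 φ ↔ CS L (red φ) := by
  constructor
  · intro h
    refine ⟨inst_num (inst φ), fun l hl => (red_length φ l hl).trans hL, ?_⟩
    obtain ⟨M, hM, hB⟩ :=
      (stab_num (ok := fun _ => True) (inst φ)).2 (stab_of_sat h (fun _ => True))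
    exact ⟨M, hM, fun c => hB c trivial⟩
  · rintro ⟨h1, h2, M, hM, hB⟩
    exact (red_corr3 hL φ).2 ⟨h1, h2, M, hM, fun c _ => hB c⟩

section

variable {α : Type} [TEnc α]

@[fun_prop]
theorem poly_vars3 {φ : α → Cnf} (h : Poly φ) : Poly (fun a => vars3 (φ a)) := by
  unfold vars3
  fun_prop

@[fun_prop]
theorem poly_lt {φ : α → Cnf} {l : α → ℕ} (h : Poly φ) (hl : Poly l) :
    Poly (fun a => lt (φ a) (l a)) := by
  unfold lt
  fun_prop

@[fun_prop]
theorem poly_ag {φ : α → Cnf} {l : α → ℕ} (h : Poly φ) (hl : Poly l) :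
    Poly (fun a => ag (φ a) (l a)) := by
  unfold ag
  fun_prop

@[fun_prop]
theorem poly_nx {l : α → ℕ} (hl : Poly l) : Poly (fun a => nx (l a)) := by
  unfold nx
  fun_prop

@[fun_prop]
theorem poly_pv {l : α → ℕ} (hl : Poly l) : Poly (fun a => pv (l a)) := by
  unfold pv
  fun_prop

@[fun_prop]
theorem poly_p1 {K : α → ℕ} {x : α → Cd} (hK : Poly K) (hx : Poly x) :
    Poly (fun a => p1 (K a) (x a)) := by
  unfold p1
  fun_prop

@[fun_prop]
theorem poly_p2 {K : α → ℕ} {x : α → Cd} (hK : Poly K) (hx : Poly x) :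
    Poly (fun a => p2 (K a) (x a)) := by
  unfold p2
  fun_prop

theorem upoly_kk {φ : α → Cnf} (h : Poly φ) : UPoly (fun a => kk (φ a)) := by
  unfold kk
  exact UPoly.mul (UPoly.const 6) (UPoly.length h)

@[fun_prop]
theorem poly_kk {φ : α → Cnf} (h : Poly φ) : Poly (fun a => kk (φ a)) := (upoly_kk h).toPoly

@[fun_prop]
theorem poly_PL {φ : α → Cnf} {x : α → Cd} (h : Poly φ) (hx : Poly x) :
    Poly (fun a => PL (φ a) (x a)) := by
  unfold PL
  fun_prop

@[fun_prop]
theorem poly_VL {φ : α → Cnf} (h : Poly φ) : Poly (fun a => VL (φ a)) := by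
  have key : ∀ {r : α → List ℕ}, Poly r → Poly (fun a =>
      ([0, 1] : List ℕ) ×ˢ ((vars3 (φ a)).dedup ×ˢ r a)) := by
    intro r hr
    fun_prop
  unfold VL
  exact key (UPoly.range (upoly_kk h))

theorem poly_red : Poly red := by
  unfold red num
  fun_prop

end

theorem hard {L : ℕ} (hL : 4 ≤ L) : HardI (CS L) := hardI_SAT3.trans poly_red (red_corr hL)

theorem hard3 {L : ℕ} (hL : 4 ≤ L) : HardI (CS3 L) := hardI_SAT3.trans poly_red (red_corr3 hL)

end Pool.Agent.X249.CSR
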