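import Pool.Agent.X249.CSR.G3S

/-!
# The reduction to lists of length three
-/

set_option autoImplicit false

namespace Pool.Agent.X249.CSR.G3

open Pool.Agent.NPC Pool.Agent.NPC.H632 Pool.Agent.H958R2

/-- The reduction. -/
noncomputable def red (ψ : Fm) : List (List ℕ) := num (VL ψ) (PL ψ)

theorem red_length (ψ : Fm) : ∀ l ∈ red ψ, l.length ≤ 3 := by
  intro l hl
  unfold red num at hl
  obtain ⟨x, -, rfl⟩ := List.mem_map.1 hl
  rw [List.length_map]
  exact PL_length ψ x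

theorem red_corr3 {L : ℕ} (hL : 3 ≤ L) (ψ : Fm) : PX ψ ↔ CS3 L (red ψ) := by
  constructor
  · intro h
    refine ⟨inst_num (inst ψ), fun l hl => (red_length ψ l hl).trans hL, ?_⟩
    exact (stab_num (ok := fun n => n ≤ 3) (inst ψ)).2 (stab_of h _)
  · rintro ⟨-, -, h⟩
    exact sat_of ((stab_num (ok := fun n => n ≤ 3) (inst ψ)).1 h)

theorem red_corr {L : ℕ} (hL : 3 ≤ L) (ψ : Fm) : PX ψ ↔ CS L (red ψ) := by
  constructor
  · intro h
    refine ⟨inst_num (inst ψ), fun l hl => (red_length ψ l hl).trans hL, ?_⟩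
    obtain ⟨M, hM, hB⟩ :=
      (stab_num (ok := fun _ => True) (inst ψ)).2 (stab_of h (fun _ => True))
    exact ⟨M, hM, fun c => hB c trivial⟩
  · rintro ⟨h1, h2, M, hM, hB⟩
    exact (red_corr3 hL ψ).2 ⟨h1, h2, M, hM, fun c _ => hB c⟩

section

variable {α : Type} [TEnc α]

@[fun_prop]
theorem poly_vs {ψ : α → Fm} (h : Poly ψ) : Poly (fun a => vs (ψ a)) := by
  unfold vs
  fun_prop

@[fun_prop]
theorem poly_vr {ψ : α → Fm} {l : α → ℕ} (h : Poly ψ) (hl : Poly l) :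
    Poly (fun a => vr (ψ a) (l a)) := by
  unfold vr
  fun_prop

@[fun_prop]
theorem poly_nx {l : α → ℕ} (hl : Poly l) : Poly (fun a => nx (l a)) := by
  unfold nx
  fun_prop

@[fun_prop]
theorem poly_pv {l : α → ℕ} (hl : Poly l) : Poly (fun a => pv (l a)) := by
  unfold pv
  fun_prop

@[fun_prop]
theorem poly_up {K l : α → ℕ} (hK : Poly K) (hl : Poly l) : Poly (fun a => up (K a) (l a)) := by
  unfold up
  fun_prop

@[fun_prop]
theorem poly_dn {K l : α → ℕ} (hK : Poly K) (hl : Poly l) : Poly (fun a => dn (K a) (l a)) := by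
  unfold dn
  fun_prop

@[fun_prop]
theorem poly_tp {ψ : α → Fm} {K : α → ℕ} {x : α → Cd} (h : Poly ψ) (hK : Poly K) (hx : Poly x) :
    Poly (fun a => tp (ψ a) (K a) (x a)) := by
  unfold tp
  fun_prop

@[fun_prop]
theorem poly_ls {ψ : α → Fm} {K : α → ℕ} {x : α → Cd} (h : Poly ψ) (hK : Poly K) (hx : Poly x) :
    Poly (fun a => ls (ψ a) (K a) (x a)) := by
  unfold ls
  fun_prop

theorem upoly_kk {ψ : α → Fm} (h : Poly ψ) : UPoly (fun a => kk (ψ a)) := by
  unfold kk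
  exact UPoly.mul (UPoly.const 3) (UPoly.length h)

@[fun_prop]
theorem poly_kk {ψ : α → Fm} (h : Poly ψ) : Poly (fun a => kk (ψ a)) := (upoly_kk h).toPoly

@[fun_prop]
theorem poly_PL {ψ : α → Fm} {x : α → Cd} (h : Poly ψ) (hx : Poly x) :
    Poly (fun a => PL (ψ a) (x a)) := by
  unfold PL
  fun_prop

@[fun_prop]
theorem poly_VL {ψ : α → Fm} (h : Poly ψ) : Poly (fun a => VL (ψ a)) := by
  have key : ∀ {r : α → List ℕ}, Poly r → Poly (fun a =>
      ([0, 1] : List ℕ) ×ˢ (r a ×ˢ ([0] : List ℕ)) ++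
      ([2, 3] : List ℕ) ×ˢ ((vs (ψ a)).dedup ×ˢ r a)) := by
    intro r hr
    fun_prop
  unfold VL
  exact key (UPoly.range (upoly_kk h))

theorem poly_red : Poly red := by
  unfold red num
  fun_prop

end

theorem hard {L : ℕ} (hL : 3 ≤ L) : HardI (CS L) := hardI_PX.trans poly_red (red_corr hL)

theorem hard3 {L : ℕ} (hL : 3 ≤ L) : HardI (CS3 L) := hardI_PX.trans poly_red (red_corr3 hL)

end Pool.Agent.X249.CSR.G3
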