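import Pool.Agent.X249.CSR.InNP2

/-!
# Lists of length at most two
-/

set_option autoImplicit false

namespace Pool.Agent.X249.CSR.Two

open Pool.Agent.NPC Pool.Agent.NPC.H632 Relation

variable {α : Type} {V : List α} {P : α → List α}

/-- A step along a ring. -/
def Rs (P : α → List α) (a b : α) : Prop := (∃ c, P a = [b, c]) ∧ ∃ d, P b = [d, a]

/-- A step with the parity. -/
def St (P : α → List α) (x y : α × Bool) : Prop := Rs P x.1 y.1 ∧ y.2 = !x.2

theorem st_unique {x y z : α × Bool} (h1 : St P x y) (h2 : St P x z) : y = z := by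
  obtain ⟨⟨⟨c, h3⟩, -⟩, h4⟩ := h1
  obtain ⟨⟨⟨d, h5⟩, -⟩, h6⟩ := h2
  rw [h3] at h5
  simp only [List.cons.injEq] at h5
  exact Prod.ext h5.1 (by rw [h4, h6])

theorem flip {x y : α × Bool} (h : ReflTransGen (St P) x y) :
    ReflTransGen (St P) (x.1, !x.2) (y.1, !y.2) := by
  induction h with
  | refl => exact ReflTransGen.refl
  | @tail y z _ h ih =>
    refine ih.tail ⟨h.1, ?_⟩
    show (!z.2) = !(!y.2)
    rw [h.2]

theorem no_odd {M : α → α} (hV : IsInst V P) (hM : IsMatching V P M)
    (hB : ∀ c : List α, c.length ≤ 3 → ¬ Blocking V P M c) {a : α} (ha : a ∈ V) :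
    ¬ ReflTransGen (St P) (a, false) (a, true) := by
  intro hr
  obtain ⟨hp, -⟩ := (short_iff hV).1 hB
  have one : ∀ x ∈ V, ∀ y, Rs P x y → y ∈ V ∧ ((∃ c, P x = [M x, c]) ↔ ¬ ∃ c, P y = [M y, c]) := by
    rintro x hx y ⟨⟨c, hc⟩, ⟨d, hd⟩⟩
    have hy : y ∈ P x := by rw [hc]; simp
    obtain ⟨g1, g2, g3⟩ := (hV.2 x hx).2 y hy
    have hnx := (hV.2 x hx).1
    have hny := (hV.2 y g1).1
    rw [hc] at hnx
    rw [hd] at hny
    simp only [List.nodup_cons, List.mem_cons, List.not_mem_nil, or_false, not_false_eq_true,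
      List.nodup_nil, and_true] at hnx hny
    refine ⟨g1, ?_⟩
    have t1 : (∃ c, P x = [M x, c]) ↔ M x = y := by
      rw [hc]
      constructor
      · rintro ⟨c', h⟩
        simp only [List.cons.injEq] at h
        exact h.1.symm
      · intro h
        exact ⟨c, by rw [h]⟩
    have t2 : (∃ c, P y = [M y, c]) ↔ M y = d := by
      rw [hd]
      constructor
      · rintro ⟨c', h⟩
        simp only [List.cons.injEq] at h
        exact h.1.symm
      · intro h
        exact ⟨x, by rw [h]⟩
    rw [t1, t2]
    have hinv : M x = y ↔ M y = x := by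
      constructor
      · intro h
        rcases hM x hx with h1 | ⟨-, h1⟩
        · exact absurd (h.symm.trans h1) g2
        · rw [h] at h1; exact h1
      · intro h
        rcases hM y g1 with h1 | ⟨-, h1⟩
        · exact absurd (h1.symm.trans h) g2
        · rw [h] at h1; exact h1
    constructor
    · intro h1 h2
      have := hinv.1 h1
      exact hny (h2.symm.trans this)
    · intro h2
      by_contra h1
      refine hp x hx y hy ⟨⟨hy, ?_⟩, ⟨g3, ?_⟩⟩
      · rcases hM x hx with h3 | ⟨h3, -⟩
        · exact Or.inl h3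
        · right
          rw [hc] at h3 ⊢
          simp only [List.mem_cons, List.not_mem_nil, or_false] at h3
          rcases h3 with h3 | h3
          · exact absurd h3 h1
          · rw [h3]
      · rcases hM y g1 with h3 | ⟨h3, -⟩
        · exact Or.inl h3
        · exfalso
          rw [hd] at h3
          simp only [List.mem_cons, List.not_mem_nil, or_false] at h3
          rcases h3 with h3 | h3
          · exact h2 h3
          · exact h1 (hinv.2 h3)
  have key : ∀ y : α × Bool, ReflTransGen (St P) (a, false) y → y.1 ∈ V ∧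
      (((∃ c, P a = [M a, c]) ↔ (∃ c, P y.1 = [M y.1, c])) ↔ y.2 = false) := by
    intro y hy
    induction hy with
    | refl => exact ⟨ha, by simp⟩
    | @tail y z _ h ih =>
      obtain ⟨h1, h2⟩ := ih
      obtain ⟨h3, h4⟩ := one _ h1 _ h.1
      refine ⟨h3, ?_⟩
      rw [h.2]
      have h5 : (!y.2) = false ↔ ¬ y.2 = false := by cases y.2 <;> simp
      rw [h5, ← h2, h4]
      tauto
  have := (key _ hr).2
  simp at this

theorem wants_congr' {M M' : α → α} {a b : α} (h : M a = M' a) :
    Wants P M a b ↔ Wants P M' a b := by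
  unfold Wants
  rw [h]

/-- `y` is the best agent for `x` in `S`. -/
def Top (P : α → List α) (S : Finset α) (x y : α) : Prop :=
  y ∈ S ∧ (P x = [y] ∨ (∃ w, P x = [y, w]) ∨ ∃ w, P x = [w, y] ∧ w ∉ S)

theorem Top.mem {S : Finset α} {x y : α} (h : Top P S x y) : y ∈ P x := by
  rcases h.2 with h | ⟨w, h⟩ | ⟨w, h, -⟩ <;> rw [h] <;> simp

theorem Top.wants {S : Finset α} {M : α → α} {x y c : α} (h : Top P S x y) (hn : (P x).Nodup)
    (hM : M x = y) (hne : y ≠ x) (hc : c ∈ S) : ¬ Wants P M x c := by
  rintro ⟨-, h1 | h1⟩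
  · exact hne (hM.symm.trans h1)
  · rw [hM] at h1
    rcases h.2 with h2 | ⟨w, h2⟩ | ⟨w, h2, hw⟩
    · rw [h2] at h1 hn
      exact absurd (G3.sub_lemma [] _ hn h1) (by simp)
    · rw [h2] at h1 hn
      exact absurd (G3.sub_lemma [] _ hn h1) (by simp)
    · rw [h2] at h1 hn
      have := G3.sub_lemma [w] [] hn h1
      simp only [List.mem_cons, List.not_mem_nil, or_false] at this
      rw [this] at hc
      exact hw hc

theorem le_two {l : List α} (h : l.length ≤ 2) {x : α} (hx : x ∈ l) :
    l = [x] ∨ (∃ w, l = [x, w]) ∨ ∃ w, l = [w, x] := by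
  rcases l with _ | ⟨a, _ | ⟨b, _ | ⟨c, l⟩⟩⟩
  · simp at hx
  · simp only [List.mem_cons, List.not_mem_nil, or_false] at hx
    exact Or.inl (by rw [hx])
  · simp only [List.mem_cons, List.not_mem_nil, or_false] at hx
    rcases hx with rfl | rfl
    · exact Or.inr (Or.inl ⟨b, rfl⟩)
    · exact Or.inr (Or.inr ⟨a, rfl⟩)
  · simp at h

theorem exists_top {S : Finset α} {x c : α} (h2 : (P x).length ≤ 2) (hc : c ∈ P x) (hS : c ∈ S) :
    ∃ y, Top P S x y := by
  classical
  rcases le_two h2 hc with h | ⟨w, h⟩ | ⟨w, h⟩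
  · exact ⟨c, hS, Or.inl h⟩
  · exact ⟨c, hS, Or.inr (Or.inl ⟨w, h⟩)⟩
  · by_cases hw : w ∈ S
    · exact ⟨w, hw, Or.inr (Or.inl ⟨c, h⟩)⟩
    · exact ⟨c, hS, Or.inr (Or.inr ⟨w, h, hw⟩)⟩

theorem build (hV : IsInst V P) (h2 : ∀ a ∈ V, (P a).length ≤ 2)
    (hodd : ∀ a ∈ V, ¬ ReflTransGen (St P) (a, false) (a, true)) :
    ∀ (n : ℕ) (S : Finset α), S.card = n → (∀ a ∈ S, a ∈ V) → ∃ M : α → α,
      (∀ a ∈ S, M a = a ∨ (M a ∈ P a ∧ M a ∈ S ∧ M (M a) = a)) ∧
      ∃ r : α → ℕ, ∀ a ∈ S, ∀ b ∈ S, Wants P M a b → r b < r a := by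
  classical
  intro n
  induction n using Nat.strong_induction_on with
  | _ n ih =>
    intro S hn hS
    by_cases h0 : ∃ a ∈ S, ∃ c ∈ S, c ∈ P a
    swap
    · refine ⟨id, fun a _ => Or.inl rfl, fun _ => 0, ?_⟩
      intro a ha b hb hw
      exact absurd ⟨a, ha, b, hb, hw.1⟩ h0
    by_cases hmut : ∃ x ∈ S, ∃ y, Top P S x y ∧ Top P S y x
    · obtain ⟨x, hx, y, hxy, hyx⟩ := hmut
      have hy := hxy.1
      have hne : y ≠ x := ((hV.2 x (hS x hx)).2 y hxy.mem).2.1
      have hsub : (S \ {x, y}) ⊆ S := Finset.sdiff_subset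
      have hlt : (S \ {x, y}).card < n := by
        rw [← hn]
        apply Finset.card_lt_card
        refine Finset.ssubset_iff_subset_ne.2 ⟨hsub, ?_⟩
        intro e
        have : x ∈ S \ {x, y} := by rw [e]; exact hx
        simp at this
      obtain ⟨M, hM, r, hr⟩ := ih _ hlt (S \ {x, y}) rfl (fun a ha => hS a (hsub ha))
      let M' : α → α := fun z => if z = x then y else if z = y then x else M z
      have m1 : M' x = y := if_pos rfl
      have m2 : M' y = x := by show (if y = x then y else if y = y then x else M y) = x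
                               rw [if_neg hne, if_pos rfl]
      have m3 : ∀ z, z ≠ x → z ≠ y → M' z = M z := by
        intro z h1 h2
        show (if z = x then y else if z = y then x else M z) = M z
        rw [if_neg h1, if_neg h2]
      have hin : ∀ z ∈ S, z ≠ x → z ≠ y → z ∈ S \ {x, y} := by
        intro z hz h1 h2
        simp [hz, h1, h2]
      refine ⟨M', ?_, fun z => if z = x ∨ z = y then 0 else r z + 2, ?_⟩
      · intro a ha
        by_cases e1 : a = x
        · subst e1
          rw [m1, m2]
          exact Or.inr ⟨hxy.mem, hy, rfl⟩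
        · by_cases e2 : a = y
          · subst e2
            rw [m2, m1]
            exact Or.inr ⟨hyx.mem, hx, rfl⟩
          · rw [m3 a e1 e2]
            rcases hM a (hin a ha e1 e2) with h | ⟨h3, h4, h5⟩
            · exact Or.inl h
            · right
              have h6 : M a ≠ x := by rintro h6; rw [h6] at h4; simp at h4
              have h7 : M a ≠ y := by rintro h7; rw [h7] at h4; simp at h4
              rw [m3 _ h6 h7]
              exact ⟨h3, hsub h4, h5⟩
      · intro a ha b hb hw
        by_cases e1 : a = x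
        · subst e1
          exact absurd hw (hxy.wants (hV.2 _ (hS _ ha)).1 m1 hne hb)
        · by_cases e2 : a = y
          · subst e2
            exact absurd hw (hyx.wants (hV.2 _ (hS _ ha)).1 m2 hne.symm hb)
          · simp only
            rw [if_neg (show ¬ (a = x ∨ a = y) by tauto)]
            by_cases e3 : b = x ∨ b = y
            · rw [if_pos e3]; omega
            · rw [if_neg e3]
              push Not at e3
              have := hr a (hin a ha e1 e2) b (hin b hb e3.1 e3.2)
                ((wants_congr' (m3 a e1 e2)).1 hw)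
              omega
    · -- the ring
      have hnx : ∀ x ∈ S, ∀ y, Top P S x y → ∃ w ∈ S, P y = [w, x] := by
        intro x hx y hxy
        have hy := hxy.1
        have hxV := hS x hx
        have hxy' := ((hV.2 x hxV).2 y hxy.mem)
        rcases le_two (h2 y (hS y hy)) hxy'.2.2 with h | ⟨w, h⟩ | ⟨w, h⟩
        · exact absurd ⟨x, hx, y, hxy, hx, Or.inl h⟩ hmut
        · exact absurd ⟨x, hx, y, hxy, hx, Or.inr (Or.inl ⟨w, h⟩)⟩ hmut
        · by_cases hw : w ∈ S
          · exact ⟨w, hw, h⟩
          · exact absurd ⟨x, hx, y, hxy, hx, Or.inr (Or.inr ⟨w, h, hw⟩)⟩ hmut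
      obtain ⟨a0, ha0, c0, hc0, hca⟩ := h0
      obtain ⟨a, hta⟩ := exists_top (h2 a0 (hS a0 ha0)) hca hc0
      obtain ⟨w0, hw0, hPa⟩ := hnx a0 ha0 a hta
      have inv : ∀ z, ReflTransGen (St P) (a, false) z →
          z.1 ∈ S ∧ ∃ y ∈ S, ∃ p, P z.1 = [y, p] := by
        intro z hz
        induction hz with
        | refl => exact ⟨hta.1, w0, hw0, a0, hPa⟩
        | @tail z z' _ h ih =>
          obtain ⟨g1, y, g2, p, g3⟩ := ih
          obtain ⟨⟨⟨c, h3⟩, ⟨d, h4⟩⟩, -⟩ := h
          have e : z'.1 = y := by
            rw [g3] at h3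
            simp only [List.cons.injEq] at h3
            exact h3.1.symm
          obtain ⟨w, hw, h5⟩ := hnx z.1 g1 y ⟨g2, Or.inr (Or.inl ⟨p, g3⟩)⟩
          rw [e]
          exact ⟨g2, w, hw, z.1, h5⟩
      have nxt : ∀ z, ReflTransGen (St P) (a, false) z → ∃ y ∈ S, (∃ p, P z.1 = [y, p]) ∧
          (∃ w ∈ S, P y = [w, z.1]) ∧ ReflTransGen (St P) (a, false) (y, !z.2) := by
        intro z hz
        obtain ⟨g1, y, g2, p, g3⟩ := inv z hz
        obtain ⟨w, hw, h5⟩ := hnx z.1 g1 y ⟨g2, Or.inr (Or.inl ⟨p, g3⟩)⟩
        exact ⟨y, g2, ⟨p, g3⟩, ⟨w, hw, h5⟩, hz.tail ⟨⟨⟨p, g3⟩, ⟨w, h5⟩⟩, rfl⟩⟩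
      set E : α → Prop := fun x => ReflTransGen (St P) (a, false) (x, false) with hE
      set O : α → Prop := fun x => ReflTransGen (St P) (a, false) (x, true) with hO
      have disj : ∀ x, E x → O x → False := by
        intro x h3 h4
        have hxV := hS x (inv _ h3).1
        have hu : Relator.RightUnique (St P) := fun _ _ _ h h' => st_unique h h'
        rcases ReflTransGen.total_of_right_unique hu h3 h4 with h | h
        · exact hodd x hxV h
        · exact hodd x hxV (flip h)
      have prev : ∀ x, O x → ∃ y, E y ∧ Rs P y x := by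
        intro x hx
        rcases ReflTransGen.cases_tail hx with h | ⟨z, h3, h4⟩
        · simp at h
        · refine ⟨z.1, ?_, h4.1⟩
          have : z.2 = false := by
            have := h4.2
            revert this
            cases z.2 <;> simp
          have h6 : z = (z.1, false) := Prod.ext rfl this
          rw [h6] at h3
          exact h3
      let R : Finset α := S.filter (fun x => E x ∨ O x)
      have hR : ∀ x, x ∈ R ↔ E x ∨ O x := by
        intro x
        show x ∈ S.filter _ ↔ _
        rw [Finset.mem_filter]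
        constructor
        · exact fun h => h.2
        · rintro (h | h)
          · exact ⟨(inv _ h).1, Or.inl h⟩
          · exact ⟨(inv _ h).1, Or.inr h⟩
      have hsub : (S \ R) ⊆ S := Finset.sdiff_subset
      have haE : E a := ReflTransGen.refl
      have hlt : (S \ R).card < n := by
        rw [← hn]
        apply Finset.card_lt_card
        refine Finset.ssubset_iff_subset_ne.2 ⟨hsub, ?_⟩
        intro e
        have : a ∈ S \ R := by rw [e]; exact hta.1
        rw [Finset.mem_sdiff, hR] at this
        exact this.2 (Or.inl haE)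
      obtain ⟨M, hM, r, hr⟩ := ih _ hlt (S \ R) rfl (fun a ha => hS a (hsub ha))
      let M' : α → α := fun z => if E z then (P z).head?.getD z
        else if O z then (P z).getLast?.getD z else M z
      have mE : ∀ x y p, E x → P x = [y, p] → M' x = y := by
        intro x y p h3 h4
        show (if E x then (P x).head?.getD x else _) = y
        rw [if_pos h3, h4]; rfl
      have mO : ∀ x y p, O x → P x = [p, y] → M' x = y := by
        intro x y p h3 h4
        show (if E x then (P x).head?.getD x
          else if O x then (P x).getLast?.getD x else M x) = y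
        rw [if_neg (fun h => disj x h h3), if_pos h3, h4]; rfl
      have mN : ∀ x, ¬ E x → ¬ O x → M' x = M x := by
        intro x h3 h4
        show (if E x then (P x).head?.getD x
          else if O x then (P x).getLast?.getD x else M x) = M x
        rw [if_neg h3, if_neg h4]
      have hin : ∀ z ∈ S, ¬ E z → ¬ O z → z ∈ S \ R := by
        intro z hz h3 h4
        rw [Finset.mem_sdiff, hR]
        tauto
      refine ⟨M', ?_, fun z => if E z then 0 else if O z then 1 else r z + 2, ?_⟩
      · intro x hx
        by_cases e1 : E x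
        · obtain ⟨y, hyS, ⟨p, hp⟩, ⟨w, hw, hPy⟩, hO'⟩ := nxt _ e1
          right
          rw [mE x y p e1 hp, mO y x w hO' hPy]
          exact ⟨by rw [hp]; simp, hyS, rfl⟩
        · by_cases e2 : O x
          · obtain ⟨y, hEy, ⟨⟨c, hc⟩, ⟨d, hd⟩⟩⟩ := prev x e2
            right
            rw [mO x y d e2 hd, mE y x c hEy hc]
            exact ⟨by rw [hd]; simp, (inv _ hEy).1, rfl⟩
          · rw [mN x e1 e2]
            rcases hM x (hin x hx e1 e2) with h | ⟨h3, h4, h5⟩
            · exact Or.inl h
            · right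
              rw [Finset.mem_sdiff, hR] at h4
              rw [mN _ (fun h => h4.2 (Or.inl h)) (fun h => h4.2 (Or.inr h))]
              exact ⟨h3, h4.1, h5⟩
      · intro x hx b hb hw
        have hxV := hS x hx
        by_cases e1 : E x
        · exfalso
          obtain ⟨y, hyS, ⟨p, hp⟩, -, -⟩ := nxt _ e1
          have hyx : y ≠ x := ((hV.2 x hxV).2 y (by rw [hp]; simp)).2.1
          exact Top.wants ⟨hyS, Or.inr (Or.inl ⟨p, hp⟩)⟩ (hV.2 x hxV).1 (mE x y p e1 hp) hyx hb hw
        · by_cases e2 : O x
          · obtain ⟨y, hEy, ⟨⟨c, hc⟩, ⟨d, hd⟩⟩⟩ := prev x e2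
            have hyx : y ≠ x := ((hV.2 x hxV).2 y (by rw [hd]; simp)).2.1
            have hs := hw.2.resolve_left (by rw [mO x y d e2 hd]; exact hyx)
            have hnd := (hV.2 x hxV).1
            rw [mO x y d e2 hd, hd] at hs
            rw [hd] at hnd
            have := G3.sub_lemma [d] [] hnd hs
            simp only [List.mem_cons, List.not_mem_nil, or_false] at this
            subst this
            obtain ⟨y', -, ⟨p', hp'⟩, -, hE'⟩ := nxt _ e2
            have hp'' : P x = [y', p'] := hp'
            rw [hd] at hp''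
            simp only [List.cons.injEq] at hp''
            have hEb : E b := by rw [hp''.1]; exact hE'
            simp only
            rw [if_pos hEb, if_neg e1, if_pos e2]
            omega
          · simp only
            rw [if_neg e1, if_neg e2]
            split_ifs with e3 e4
            · omega
            · omega
            · have := hr x (hin x hx e1 e2) b (hin b hb e3 e4) ((wants_congr' (mN x e1 e2)).1 hw)
              omega

end Pool.Agent.X249.CSR.Two
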