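import Pool.Agent.X249.CSR.Two
import Pool.Agent.H614R2.DPO.TP1
import Pool.Agent.H614R2.DPO.TG2

/-!
# Lists of length at most two: the algorithm
-/

set_option autoImplicit false

namespace Pool.Agent.X249.CSR.Two

open Pool.Agent.NPC Pool.Agent.NPC.H632 Relation Pool.Agent.H614R2.DPO

theorem crit {α : Type} {V : List α} {P : α → List α} (hV : IsInst V P)
    (h2 : ∀ a ∈ V, (P a).length ≤ 2) {ok : ℕ → Prop} (hok : ∀ n, n ≤ 3 → ok n) :
    Stab ok V P ↔ ∀ a ∈ V, ¬ ReflTransGen (St P) (a, false) (a, true) := by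
  classical
  constructor
  · rintro ⟨M, hM, hB⟩ a ha
    exact no_odd hV hM (fun c hc => hB c (hok _ hc)) ha
  · intro h
    obtain ⟨M, hM, r, hr⟩ := build hV h2 h _ V.toFinset rfl (fun a ha => List.mem_toFinset.1 ha)
    refine ⟨M, ?_, ?_⟩
    · intro a ha
      rcases hM a (List.mem_toFinset.2 ha) with h | h
      · exact Or.inl h
      · exact Or.inr ⟨h.1, h.2.2⟩
    · rintro c - ⟨c1, c2, c3, c4⟩
      have step : ∀ x ∈ c, ∃ y ∈ c, r y < r x := by
        intro x hx
        obtain ⟨i, hi, hix⟩ := List.getElem_of_mem hx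
        have hj : (i + 1) % c.length < c.length := Nat.mod_lt _ (by omega)
        have hw := c4 i x _ (by rw [List.getElem?_eq_getElem hi, hix])
          (List.getElem?_eq_getElem hj)
        exact ⟨_, List.getElem_mem hj, hr x (List.mem_toFinset.2 (c1 x hx)) _
          (List.mem_toFinset.2 (c1 _ (List.getElem_mem hj))) hw⟩
      have key : ∀ n, ∀ x ∈ c, r x ≠ n := by
        intro n
        induction n using Nat.strong_induction_on with
        | _ n ih =>
          intro x hx e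
          obtain ⟨y, hy, hlt⟩ := step x hx
          exact ih _ (by omega) y hy rfl
      rcases c with _ | ⟨x0, c⟩
      · simp at c3
      · exact key _ x0 (by simp) rfl

theorem len20 {l : List ℕ} {b : ℕ} : (l.length = 2 ∧ l.getD 0 0 = b) ↔ ∃ c, l = [b, c] := by
  constructor
  · rintro ⟨h1, h2⟩
    rcases l with _ | ⟨x, _ | ⟨y, _ | ⟨z, l⟩⟩⟩
    · simp at h1
    · simp at h1
    · simp at h2
      exact ⟨y, by rw [h2]⟩
    · simp at h1
  · rintro ⟨c, rfl⟩
    simp

theorem len21 {l : List ℕ} {b : ℕ} : (l.length = 2 ∧ l.getD 1 0 = b) ↔ ∃ c, l = [c, b] := by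
  constructor
  · rintro ⟨h1, h2⟩
    rcases l with _ | ⟨x, _ | ⟨y, _ | ⟨z, l⟩⟩⟩
    · simp at h1
    · simp at h1
    · simp at h2
      exact ⟨x, by rw [h2]⟩
    · simp at h1
  · rintro ⟨c, rfl⟩
    simp

/-- The steps along rings. -/
def rsb (I : List (List ℕ)) (x y : ℕ × Bool) : Bool :=
  decide ((pref I x.1).length = 2) && (decide ((pref I x.1).getD 0 0 = y.1) &&
    (decide ((pref I y.1).length = 2) && (decide ((pref I y.1).getD 1 0 = x.1) &&
      decide (y.2 = !x.2))))

theorem rsb_iff {I : List (List ℕ)} {x y : ℕ × Bool} : rsb I x y = true ↔ St (pref I) x y := by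
  unfold rsb St Rs
  rw [← len20, ← len21]
  simp only [Bool.and_eq_true, decide_eq_true_eq]
  tauto

/-- The nodes. -/
def nds (r : List ℕ) : List (ℕ × Bool) := r ×ˢ ([false, true] : List Bool)

theorem mem_nds {r : List ℕ} {x : ℕ × Bool} : x ∈ nds r ↔ x.1 ∈ r := by
  obtain ⟨a, b⟩ := x
  unfold nds
  rw [List.mem_product]
  cases b <;> simp

theorem reach_iff {I : List (List ℕ)} {r : List ℕ} (hI : IsInst r (pref I)) {a : ℕ}
    (ha : a ∈ r) : (a, true) ∈ reachG (rsb I) (nds r) (a, false) ↔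
      ReflTransGen (St (pref I)) (a, false) (a, true) := by
  rw [mem_reachG]
  constructor
  · rintro ⟨-, h⟩
    exact ReflTransGen.mono (fun x y h => rsb_iff.1 h.1) _ _ h
  · intro h
    refine ⟨mem_nds.2 ha, ?_⟩
    have key : ∀ y, ReflTransGen (St (pref I)) (a, false) y → y.1 ∈ r ∧
        ReflTransGen (fun x y => rsb I x y = true ∧ y ∈ nds r) (a, false) y := by
      intro y hy
      induction hy with
      | refl => exact ⟨ha, ReflTransGen.refl⟩
      | @tail y z _ h ih =>
        obtain ⟨h1, h2⟩ := ih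
        have hz : z.1 ∈ r := by
          obtain ⟨⟨⟨c, hc⟩, -⟩, -⟩ := h
          exact ((hI.2 _ h1).2 z.1 (by rw [hc]; simp)).1
        exact ⟨hz, h2.tail ⟨rsb_iff.2 h, mem_nds.2 hz⟩⟩
    exact (key _ h).2

/-- The test. -/
def Tst (L : ℕ) (I : List (List ℕ)) (r : List ℕ) : Prop :=
  (∀ a ∈ r, (pref I a).Nodup ∧ ∀ b ∈ pref I a, b ∈ r ∧ b ≠ a ∧ a ∈ pref I b) ∧
  (∀ l ∈ I, l.length ≤ L) ∧
  ∀ a ∈ r, ¬ ((a, true) ∈ reachG (rsb I) (nds r) (a, false))

theorem pref_len {L : ℕ} {I : List (List ℕ)} (h : ∀ l ∈ I, l.length ≤ L) :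
    ∀ a ∈ List.range I.length, (pref I a).length ≤ L := by
  intro a ha
  have ha' := List.mem_range.1 ha
  unfold pref
  rw [List.getD_eq_getElem _ _ ha']
  exact h _ (List.getElem_mem ha')

theorem tst_iff {L : ℕ} (hL : L ≤ 2) (I : List (List ℕ)) {ok : ℕ → Prop}
    (hok : ∀ n, n ≤ 3 → ok n) :
    (IsInst (List.range I.length) (pref I) ∧ (∀ l ∈ I, l.length ≤ L) ∧
      Stab ok (List.range I.length) (pref I)) ↔ Tst L I (List.range I.length) := by
  unfold Tst
  constructor
  · rintro ⟨h1, h2, h3⟩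
    refine ⟨h1.2, h2, ?_⟩
    intro a ha
    rw [reach_iff h1 ha]
    exact (crit h1 (fun a ha => (pref_len h2 a ha).trans hL) hok).1 h3 a ha
  · rintro ⟨h1, h2, h3⟩
    have hI : IsInst (List.range I.length) (pref I) := ⟨List.nodup_range, h1⟩
    refine ⟨hI, h2, (crit hI (fun a ha => (pref_len h2 a ha).trans hL) hok).2 ?_⟩
    intro a ha
    rw [← reach_iff hI ha]
    exact h3 a ha

theorem cs_iff {L : ℕ} (hL : L ≤ 2) (I : List (List ℕ)) :
    CS L I ↔ Tst L I (List.range I.length) := by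
  rw [← tst_iff hL I (ok := fun _ => True) (fun _ _ => trivial)]
  unfold CS Stab
  simp only [true_imp_iff]

theorem cs3_iff {L : ℕ} (hL : L ≤ 2) (I : List (List ℕ)) :
    CS3 L I ↔ Tst L I (List.range I.length) :=
  tst_iff hL I (ok := fun n => n ≤ 3) (fun _ h => h)

theorem poly_rsb : Poly (fun p : List (List ℕ) × (ℕ × Bool) × (ℕ × Bool) =>
    rsb p.1 p.2.1 p.2.2) := by
  unfold rsb
  fun_prop

theorem poly_tst (L : ℕ) {r : List (List ℕ) → List ℕ} (hr : Poly r) :
    Poly (fun I => @decide (Tst L I (r I)) (Classical.propDecidable _)) := by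
  have hn : Poly (fun p : List (List ℕ) × ℕ => nds (r p.1)) := by
    unfold nds
    fun_prop
  have hreach : Poly (fun p : List (List ℕ) × ℕ =>
      reachG (rsb p.1) (nds (r p.1)) (p.2, false)) := by
    refine poly_reachG (α := List (List ℕ) × ℕ) (R := fun p => rsb p.1)
      (S := fun p => nds (r p.1)) (x := fun p => (p.2, false)) ?_ hn ?_
    · exact Poly.comp poly_rsb
        (f := fun p : (List (List ℕ) × ℕ) × (ℕ × Bool) × (ℕ × Bool) => (p.1.1, p.2.1, p.2.2))
        (by fun_prop)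
    · fun_prop
  have hmem : Poly (fun p : List (List ℕ) × ℕ =>
      @decide ((p.2, true) ∈ reachG (rsb p.1) (nds (r p.1)) (p.2, false))
        (Classical.propDecidable _)) := by
    fun_prop
  unfold Tst
  fun_prop

theorem inPP {L : ℕ} (hL : L ≤ 2) : InPP (CS L) := by
  classical
  refine inPP_of (poly_tst L (UPoly.range (UPoly.length (Poly.id)))) (fun I => ?_)
  rw [cs_iff hL I]
  simp

theorem inPP3 {L : ℕ} (hL : L ≤ 2) : InPP (CS3 L) := by
  classical
  refine inPP_of (poly_tst L (UPoly.range (UPoly.length (Poly.id)))) (fun I => ?_)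
  rw [cs3_iff hL I]
  simp

end Pool.Agent.X249.CSR.Two
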